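import Pool.Agent.Work.MP_3b7dc8_lc.Family

/-!
# Every approximate equilibrium needs a tiny probability
-/

set_option autoImplicit false
set_option linter.unusedSectionVars false

open scoped BigOperators Topology
open Filter

namespace Pool.Agent.Work.MP_3b7dc8_lc

namespace Family

variable {n : ℕ}

/-- A sequence indexed by `Fin (n+1)` defined by recursion. -/
noncomputable def seq (a : ℝ) (f : Fin n → ℝ → ℝ) (j : Fin (n + 1)) : ℝ :=
  Fin.induction (motive := fun _ => ℝ) a f j

@[simp] lemma seq_zero (a : ℝ) (f : Fin n → ℝ → ℝ) : seq a f 0 = a := rfl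

@[simp] lemma seq_succ (a : ℝ) (f : Fin n → ℝ → ℝ) (i : Fin n) :
    seq a f i.succ = f i (seq a f i.castSucc) := by
  simp [seq]

variable (σ : Vx n → Vx n → ℝ)

/-- success probability of `lvl (i+1)` -/
def pr (i : Fin n) : ℝ := σ (Vx.lvl i.succ) (Vx.s i)
/-- claim probability at `s i` -/
def cl (i : Fin n) : ℝ := σ (Vx.s i) Vx.tT
/-- probability that `D i` enters its hub -/
def tk (i : Fin n) : ℝ := σ (Vx.dec i.succ) (Vx.hub i)
/-- probability that `J` enters its hub -/
def tkJ : ℝ := σ (Vx.dec 0) Vx.hubJ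
/-- success probability of `v` -/
def pv : ℝ := σ Vx.v Vx.tJ
/-- success probability of `z` -/
def pz : ℝ := σ Vx.z Vx.tZ

/-- probability to reach `lvl 0` from `lvl j` without returning -/
noncomputable def PP : Fin (n + 1) → ℝ := seq 1 fun i x => pr σ i * (1 - cl σ i) * x
/-- probability to reach a terminal from `lvl j` without returning -/
noncomputable def EE : Fin (n + 1) → ℝ :=
  seq 1 fun i x => pr σ i * (cl σ i + (1 - cl σ i) * x)
/-- probability to go down from `dec j` to `dec 0` -/
noncomputable def OO : Fin (n + 1) → ℝ := seq 1 fun i x => (1 - tk σ i) * x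
/-- exit rates through the hubs -/
noncomputable def XX : Fin (n + 1) → ℝ :=
  seq (tkJ σ * EE σ (Fin.last n))
    fun i x => tk σ i * (EE σ i.succ + EE σ i.castSucc) + (1 - tk σ i) * x
/-- exit rates to `lvl 0` through the hubs of the `D i` -/
noncomputable def SS : Fin (n + 1) → ℝ :=
  seq 0 fun i x => tk σ i * (PP σ i.succ + PP σ i.castSucc) + (1 - tk σ i) * x

variable {σ}

section bounds

variable (hσ : (game n).IsProfile σ)
include hσ

lemma pr_mem (i : Fin n) : 0 ≤ pr σ i ∧ 0 ≤ 1 - pr σ i :=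
  prob_mem hσ (kind_lvl_succ i) (suc_lvl_succ i)
lemma cl_mem (i : Fin n) : 0 ≤ cl σ i ∧ 0 ≤ 1 - cl σ i :=
  prob_mem hσ (u := Vx.s i) (i := Pl.D i) rfl rfl
lemma tk_mem (i : Fin n) : 0 ≤ tk σ i ∧ 0 ≤ 1 - tk σ i :=
  prob_mem hσ (kind_dec_succ i) (suc_dec_succ i)
lemma tkJ_mem : 0 ≤ tkJ σ ∧ 0 ≤ 1 - tkJ σ :=
  prob_mem hσ kind_dec_zero suc_dec_zero
lemma pv_mem : 0 ≤ pv σ ∧ 0 ≤ 1 - pv σ :=
  prob_mem hσ (u := Vx.v) (i := Pl.O) rfl rfl
lemma pz_mem : 0 ≤ pz σ ∧ 0 ≤ 1 - pz σ :=
  prob_mem hσ (u := Vx.z) (i := Pl.O) rfl rfl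

lemma PP_nonneg (j : Fin (n + 1)) : 0 ≤ PP σ j := by
  induction j using Fin.induction with
  | zero => simp [PP]
  | succ i ih =>
    have h1 := pr_mem hσ i
    have h2 := cl_mem hσ i
    have : PP σ i.succ = pr σ i * (1 - cl σ i) * PP σ i.castSucc := by simp [PP]
    rw [this]
    exact mul_nonneg (mul_nonneg h1.1 h2.2) ih

lemma PP_le_EE (j : Fin (n + 1)) : PP σ j ≤ EE σ j := by
  induction j using Fin.induction with
  | zero => simp [PP, EE]
  | succ i ih =>
    have h1 := pr_mem hσ i
    have h2 := cl_mem hσ i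
    have e1 : PP σ i.succ = pr σ i * ((1 - cl σ i) * PP σ i.castSucc) := by simp [PP]; ring
    have e2 : EE σ i.succ = pr σ i * (cl σ i + (1 - cl σ i) * EE σ i.castSucc) := by simp [EE]
    rw [e1, e2]
    refine mul_le_mul_of_nonneg_left ?_ h1.1
    have := mul_le_mul_of_nonneg_left ih h2.2
    linarith [h2.1]

lemma EE_nonneg (j : Fin (n + 1)) : 0 ≤ EE σ j := (PP_nonneg hσ j).trans (PP_le_EE hσ j)

lemma OO_nonneg (j : Fin (n + 1)) : 0 ≤ OO σ j := by
  induction j using Fin.induction with
  | zero => simp [OO]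
  | succ i ih =>
    have h1 := tk_mem hσ i
    have : OO σ i.succ = (1 - tk σ i) * OO σ i.castSucc := by simp [OO]
    rw [this]
    exact mul_nonneg h1.2 ih

lemma SS_le_XX (j : Fin (n + 1)) : SS σ j ≤ XX σ j := by
  induction j using Fin.induction with
  | zero =>
    have : (0 : ℝ) ≤ tkJ σ * EE σ (Fin.last n) := mul_nonneg (tkJ_mem hσ).1 (EE_nonneg hσ _)
    simpa [SS, XX] using this
  | succ i ih =>
    have h1 := tk_mem hσ i
    have e1 : SS σ i.succ = tk σ i * (PP σ i.succ + PP σ i.castSucc)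
        + (1 - tk σ i) * SS σ i.castSucc := by simp [SS]
    have e2 : XX σ i.succ = tk σ i * (EE σ i.succ + EE σ i.castSucc)
        + (1 - tk σ i) * XX σ i.castSucc := by simp [XX]
    rw [e1, e2]
    have a1 := PP_le_EE hσ i.succ
    have a2 := PP_le_EE hσ i.castSucc
    exact add_le_add (mul_le_mul_of_nonneg_left (by linarith) h1.1)
      (mul_le_mul_of_nonneg_left ih h1.2)

/-- If `OO` is positive at the end, nobody enters its hub with probability one. -/
lemma tk_lt_one (hO : 0 < OO σ (Fin.last n)) (m : Fin n) : 0 < 1 - tk σ m := by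
  by_contra hcon
  have h0 : 1 - tk σ m = 0 := le_antisymm (not_lt.1 hcon) (tk_mem hσ m).2
  have key : ∀ j : Fin (n + 1), m.succ ≤ j → OO σ j = 0 := by
    intro j
    induction j using Fin.induction with
    | zero => intro h; exact absurd h (by simp)
    | succ i ih =>
      intro h
      have e : OO σ i.succ = (1 - tk σ i) * OO σ i.castSucc := by simp [OO]
      rw [e]
      rcases eq_or_lt_of_le (Fin.succ_le_succ_iff.1 h) with hmi | hmi
      · rw [← hmi, h0, zero_mul]
      · have : m.succ ≤ i.castSucc := by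
          rw [Fin.le_def]
          simpa using hmi
        rw [ih this, mul_zero]
  have := key (Fin.last n) (Fin.le_last _)
  linarith

end bounds

section bellman

variable (hσ : (game n).IsProfile σ) (i : Pl n)
include hσ

lemma val_lvl_zero : (game n).val σ i (Vx.lvl 0) = 0 := by
  rw [val_terminal hσ i kind_lvl_zero]; simp [reward]

lemma val_lvl_succ (j : Fin n) : (game n).val σ i (Vx.lvl j.succ) =
    pr σ j * (game n).val σ i (Vx.s j) + (1 - pr σ j) * (game n).val σ i (Vx.dec (Fin.last n)) :=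
  val_player hσ i (kind_lvl_succ j) (suc_lvl_succ j)

lemma val_s (j : Fin n) : (game n).val σ i (Vx.s j) =
    cl σ j * (game n).val σ i Vx.tT + (1 - cl σ j) * (game n).val σ i (Vx.lvl j.castSucc) :=
  val_player hσ i (u := Vx.s j) (j := Pl.D j) rfl rfl

lemma val_hub (j : Fin n) : (game n).val σ i (Vx.hub j) =
    ((game n).val σ i (Vx.lvl j.succ) + (game n).val σ i (Vx.lvl j.castSucc)) / 2 :=
  val_chance hσ i (u := Vx.hub j) rfl rfl

lemma val_hubJ : (game n).val σ i Vx.hubJ =
    ((game n).val σ i Vx.v + (game n).val σ i (Vx.lvl (Fin.last n))) / 2 :=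
  val_chance hσ i (u := Vx.hubJ) rfl rfl

lemma val_hubStar : (game n).val σ i Vx.hubStar =
    ((game n).val σ i Vx.z + (game n).val σ i Vx.v) / 2 :=
  val_chance hσ i (u := Vx.hubStar) rfl rfl

lemma val_v : (game n).val σ i Vx.v =
    pv σ * (game n).val σ i Vx.tJ + (1 - pv σ) * (game n).val σ i (Vx.dec (Fin.last n)) :=
  val_player hσ i (u := Vx.v) (j := Pl.O) rfl rfl

lemma val_z : (game n).val σ i Vx.z =
    pz σ * (game n).val σ i Vx.tZ + (1 - pz σ) * (game n).val σ i (Vx.dec (Fin.last n)) :=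
  val_player hσ i (u := Vx.z) (j := Pl.O) rfl rfl

lemma val_dec_zero : (game n).val σ i (Vx.dec 0) =
    tkJ σ * (game n).val σ i Vx.hubJ + (1 - tkJ σ) * (game n).val σ i Vx.hubStar :=
  val_player hσ i kind_dec_zero suc_dec_zero

lemma val_dec_succ (j : Fin n) : (game n).val σ i (Vx.dec j.succ) =
    tk σ j * (game n).val σ i (Vx.hub j) + (1 - tk σ j) * (game n).val σ i (Vx.dec j.castSucc) :=
  val_player hσ i (kind_dec_succ j) (suc_dec_succ j)

lemma val_tT : (game n).val σ i Vx.tT = (reward (n := n) Vx.tT i : ℝ) := val_terminal hσ i rfl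
lemma val_tJ : (game n).val σ i Vx.tJ = (reward (n := n) Vx.tJ i : ℝ) := val_terminal hσ i rfl
lemma val_tZ : (game n).val σ i Vx.tZ = (reward (n := n) Vx.tZ i : ℝ) := val_terminal hσ i rfl

end bellman

/-- The identity obtained from the payoff of `O`. -/
lemma O_eq (hσ : (game n).IsProfile σ) :
    (game n).payoff σ Pl.O * XX σ (Fin.last n) =
      (1 - (game n).payoff σ Pl.O) *
        (OO σ (Fin.last n) * (pv σ + (1 - tkJ σ) * pz σ)) := by
  rw [Game.payoff_eq_val, game_init]
  set y := (game n).val σ Pl.O (Vx.dec (Fin.last n)) with hy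
  have hlvl : ∀ j : Fin (n + 1), (game n).val σ Pl.O (Vx.lvl j) - y = - y * EE σ j := by
    intro j
    induction j using Fin.induction with
    | zero => rw [val_lvl_zero hσ]; simp [EE]
    | succ i ih =>
      have e2 : EE σ i.succ = pr σ i * (cl σ i + (1 - cl σ i) * EE σ i.castSucc) := by simp [EE]
      rw [val_lvl_succ hσ, val_s hσ, val_tT hσ, e2]
      have ih' : (game n).val σ Pl.O (Vx.lvl i.castSucc) = y - y * EE σ i.castSucc := by
        linarith
      rw [ih']
      simp only [reward, ← hy]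
      push_cast
      ring
  have hv : (game n).val σ Pl.O Vx.v - y = pv σ * (1 - y) := by
    rw [val_v hσ, val_tJ hσ]
    simp only [reward, ← hy]
    push_cast
    ring
  have hz : (game n).val σ Pl.O Vx.z - y = pz σ * (1 - y) := by
    rw [val_z hσ, val_tZ hσ]
    simp only [reward, ← hy]
    push_cast
    ring
  have hdec : ∀ j : Fin (n + 1), (game n).val σ Pl.O (Vx.dec j) - y =
      (-(y * XX σ j) + (1 - y) * (OO σ j * (pv σ + (1 - tkJ σ) * pz σ))) / 2 := by
    intro j
    induction j using Fin.induction with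
    | zero =>
      have e1 : XX σ (0 : Fin (n + 1)) = tkJ σ * EE σ (Fin.last n) := by simp [XX]
      have e2 : OO σ (0 : Fin (n + 1)) = 1 := by simp [OO]
      rw [val_dec_zero hσ, val_hubJ hσ, val_hubStar hσ, e1, e2]
      have h1 : (game n).val σ Pl.O Vx.v = y + pv σ * (1 - y) := by linarith
      have h2 : (game n).val σ Pl.O Vx.z = y + pz σ * (1 - y) := by linarith
      have h3 : (game n).val σ Pl.O (Vx.lvl (Fin.last n)) = y - y * EE σ (Fin.last n) := by
        linarith [hlvl (Fin.last n)]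
      rw [h1, h2, h3]
      ring
    | succ i ih =>
      have e1 : XX σ i.succ = tk σ i * (EE σ i.succ + EE σ i.castSucc)
        + (1 - tk σ i) * XX σ i.castSucc := by simp [XX]
      have e2 : OO σ i.succ = (1 - tk σ i) * OO σ i.castSucc := by simp [OO]
      rw [val_dec_succ hσ, val_hub hσ, e1, e2]
      have h1 : (game n).val σ Pl.O (Vx.lvl i.succ) = y - y * EE σ i.succ := by
        linarith [hlvl i.succ]
      have h2 : (game n).val σ Pl.O (Vx.lvl i.castSucc) = y - y * EE σ i.castSucc := by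
        linarith [hlvl i.castSucc]
      have h3 : (game n).val σ Pl.O (Vx.dec i.castSucc) = y +
        (-(y * XX σ i.castSucc) +
          (1 - y) * (OO σ i.castSucc * (pv σ + (1 - tkJ σ) * pz σ))) / 2 := by linarith
      rw [h1, h2, h3]
      ring
  have := hdec (Fin.last n)
  rw [← hy] at this
  linarith

/-- The inequality obtained from the payoff of `J`. -/
lemma J_ineq (hσ : (game n).IsProfile σ) :
    OO σ (Fin.last n) * ((1 - tkJ σ) * pz σ) * (game n).payoff σ Pl.J ≤
      XX σ (Fin.last n) + OO σ (Fin.last n) * pv σ * (1 - (game n).payoff σ Pl.J) := by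
  rw [Game.payoff_eq_val, game_init]
  set x := (game n).val σ Pl.J (Vx.dec (Fin.last n)) with hx
  have hx0 : 0 ≤ x := Game.val_nonneg game_valid hσ _ _
  have hx1 : x ≤ 1 := Game.val_le_one game_valid hσ _ _
  have hlvl : ∀ j : Fin (n + 1), (game n).val σ Pl.J (Vx.lvl j) - x ≤ EE σ j := by
    intro j
    induction j using Fin.induction with
    | zero => rw [val_lvl_zero hσ]; simp [EE]; linarith
    | succ i ih =>
      have h1 := pr_mem hσ i
      have h2 := cl_mem hσ i
      have e2 : EE σ i.succ = pr σ i * (cl σ i + (1 - cl σ i) * EE σ i.castSucc) := by simp [EE]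
      have e3 : (game n).val σ Pl.J (Vx.lvl i.succ) - x = pr σ i *
          (cl σ i * (1 - x) + (1 - cl σ i) * ((game n).val σ Pl.J (Vx.lvl i.castSucc) - x)) := by
        rw [val_lvl_succ hσ, val_s hσ, val_tT hσ]
        simp only [reward, ← hx]
        push_cast
        ring
      rw [e3, e2]
      refine mul_le_mul_of_nonneg_left ?_ h1.1
      have a1 := mul_le_mul_of_nonneg_left ih h2.2
      have a2 : cl σ i * (1 - x) ≤ cl σ i * 1 := mul_le_mul_of_nonneg_left (by linarith) h2.1
      linarith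
  have hv : (game n).val σ Pl.J Vx.v - x = pv σ * (1 - x) := by
    rw [val_v hσ, val_tJ hσ]
    simp only [reward, ← hx]
    push_cast
    ring
  have hz : (game n).val σ Pl.J Vx.z - x = - (pz σ * x) := by
    rw [val_z hσ, val_tZ hσ]
    simp only [reward, ← hx]
    push_cast
    ring
  have hdec : ∀ j : Fin (n + 1), (game n).val σ Pl.J (Vx.dec j) - x ≤
      (XX σ j + OO σ j * (pv σ * (1 - x) - (1 - tkJ σ) * pz σ * x)) / 2 := by
    intro j
    induction j using Fin.induction with
    | zero =>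
      have e1 : XX σ (0 : Fin (n + 1)) = tkJ σ * EE σ (Fin.last n) := by simp [XX]
      have e2 : OO σ (0 : Fin (n + 1)) = 1 := by simp [OO]
      have e3 : (game n).val σ Pl.J (Vx.dec 0) - x =
          (tkJ σ * (((game n).val σ Pl.J (Vx.lvl (Fin.last n)) - x) +
              ((game n).val σ Pl.J Vx.v - x))
            + (1 - tkJ σ) * (((game n).val σ Pl.J Vx.z - x) +
              ((game n).val σ Pl.J Vx.v - x))) / 2 := by
        rw [val_dec_zero hσ, val_hubJ hσ, val_hubStar hσ]
        ring
      rw [e3, e1, e2, hv, hz]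
      have a1 := mul_le_mul_of_nonneg_left (hlvl (Fin.last n)) (tkJ_mem hσ).1
      have : tkJ σ * (((game n).val σ Pl.J (Vx.lvl (Fin.last n)) - x) + pv σ * (1 - x)) +
          (1 - tkJ σ) * (-(pz σ * x) + pv σ * (1 - x)) ≤
          tkJ σ * EE σ (Fin.last n) + 1 * (pv σ * (1 - x) - (1 - tkJ σ) * pz σ * x) := by
        nlinarith
      linarith
    | succ i ih =>
      have h1 := tk_mem hσ i
      have e1 : XX σ i.succ = tk σ i * (EE σ i.succ + EE σ i.castSucc)
        + (1 - tk σ i) * XX σ i.castSucc := by simp [XX]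
      have e2 : OO σ i.succ = (1 - tk σ i) * OO σ i.castSucc := by simp [OO]
      have e3 : (game n).val σ Pl.J (Vx.dec i.succ) - x =
          tk σ i * ((((game n).val σ Pl.J (Vx.lvl i.succ) - x) +
            ((game n).val σ Pl.J (Vx.lvl i.castSucc) - x)) / 2) +
          (1 - tk σ i) * ((game n).val σ Pl.J (Vx.dec i.castSucc) - x) := by
        rw [val_dec_succ hσ, val_hub hσ]
        ring
      rw [e3, e1, e2]
      have a1 := mul_le_mul_of_nonneg_left ih h1.2
      have a2 : tk σ i * ((((game n).val σ Pl.J (Vx.lvl i.succ) - x) +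
            ((game n).val σ Pl.J (Vx.lvl i.castSucc) - x)) / 2) ≤
          tk σ i * ((EE σ i.succ + EE σ i.castSucc) / 2) :=
        mul_le_mul_of_nonneg_left (by linarith [hlvl i.succ, hlvl i.castSucc]) h1.1
      calc _ ≤ tk σ i * ((EE σ i.succ + EE σ i.castSucc) / 2) + (1 - tk σ i) *
            ((XX σ i.castSucc + OO σ i.castSucc *
              (pv σ * (1 - x) - (1 - tkJ σ) * pz σ * x)) / 2) := add_le_add a2 a1
        _ = _ := by ring
  have := hdec (Fin.last n)
  rw [← hx] at this
  nlinarith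

/-- General lower bound on the values of the levels for a player with reward `1` at `tT`. -/
lemma lvl_lower (hσ : (game n).IsProfile σ) (i : Pl n) (hi : (reward (n := n) Vx.tT i) = 1)
    (m : Fin (n + 1)) :
    - ((game n).val σ i (Vx.dec (Fin.last n)) * PP σ m) ≤
      (game n).val σ i (Vx.lvl m) - (game n).val σ i (Vx.dec (Fin.last n)) := by
  set x := (game n).val σ i (Vx.dec (Fin.last n)) with hx
  have hx0 : 0 ≤ x := Game.val_nonneg game_valid hσ _ _
  have hx1 : x ≤ 1 := Game.val_le_one game_valid hσ _ _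
  induction m using Fin.induction with
  | zero => rw [val_lvl_zero hσ]; simp [PP]
  | succ j ih =>
    have h1 := pr_mem hσ j
    have h2 := cl_mem hσ j
    have e2 : PP σ j.succ = pr σ j * ((1 - cl σ j) * PP σ j.castSucc) := by simp [PP]; ring
    have e3 : (game n).val σ i (Vx.lvl j.succ) - x = pr σ j *
        (cl σ j * (1 - x) + (1 - cl σ j) * ((game n).val σ i (Vx.lvl j.castSucc) - x)) := by
      rw [val_lvl_succ hσ, val_s hσ, val_tT hσ, hi]
      simp only [← hx]
      push_cast
      ring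
    rw [e3, e2]
    have a1 := mul_le_mul_of_nonneg_left ih h2.2
    have a2 : 0 ≤ cl σ j * (1 - x) := mul_nonneg h2.1 (by linarith)
    have a3 := mul_le_mul_of_nonneg_left (add_le_add a2 a1) h1.1
    calc _ = pr σ j * (0 + (1 - cl σ j) * -(x * PP σ j.castSucc)) := by ring
      _ ≤ _ := a3

end Family

end Pool.Agent.Work.MP_3b7dc8_lc
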