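import Pool.Agent.Work.MP_3b7dc8_lc.Defs

/-!
# General facts on stationary profiles: Bellman equation, super-solutions
-/

set_option autoImplicit false

open scoped BigOperators Topology
open Filter

namespace Pool.Agent.Work.MP_3b7dc8_lc

variable {ι V : Type} [Fintype V]

namespace Game

variable {G : Game ι V} {σ : V → V → ℝ}

lemma stop_of_terminal {i : ι} {u : V} (h : G.kind u = Kind.terminal) :
    G.stop i u = (G.reward u i : ℝ) := by
  simp [stop, h]

lemma stop_of_player {i j : ι} {u : V} (h : G.kind u = Kind.player j) : G.stop i u = 0 := by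
  simp [stop, h]

lemma stop_of_chance {i : ι} {u : V} (h : G.kind u = Kind.chance) : G.stop i u = 0 := by
  simp [stop, h]

lemma step_of_terminal {u v : V} (h : G.kind u = Kind.terminal) : G.step σ u v = 0 := by
  simp [step, h]

lemma step_of_player {j : ι} {u v : V} (h : G.kind u = Kind.player j) :
    G.step σ u v = σ u v := by
  simp [step, h]

lemma step_of_chance {u v : V} (h : G.kind u = Kind.chance) :
    G.step σ u v = (G.prob u v : ℝ) := by
  simp [step, h]

lemma stop_nonneg (hG : G.Valid) (i : ι) (u : V) : 0 ≤ G.stop i u := by
  unfold stop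
  split
  · rename_i h
    exact_mod_cast hG.reward_nonneg u h i
  · exact le_refl _

lemma step_nonneg (hG : G.Valid) (hσ : G.IsProfile σ) (u v : V) : 0 ≤ G.step σ u v := by
  unfold step
  split
  · rename_i i h
    exact (hσ u i h).nonneg v
  · rename_i h
    exact_mod_cast hG.chance_nonneg u h v
  · exact le_refl _

/-- If `f ≤ 1` then the one-step update of `f` is at most `1`. -/
lemma update_le_one (hG : G.Valid) (hσ : G.IsProfile σ) (i : ι) (u : V) (f : V → ℝ)
    (hf : ∀ v, f v ≤ 1) : G.stop i u + ∑ v, G.step σ u v * f v ≤ 1 := by
  rcases hk : G.kind u with j | _ | _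
  · rw [stop_of_player hk, zero_add]
    calc ∑ v, G.step σ u v * f v ≤ ∑ v, G.step σ u v * 1 :=
          Finset.sum_le_sum fun v _ => mul_le_mul_of_nonneg_left (hf v) (step_nonneg hG hσ u v)
      _ = ∑ v, σ u v := by
          refine Finset.sum_congr rfl fun v _ => ?_
          rw [step_of_player hk, mul_one]
      _ = 1 := (hσ u j hk).sum_eq
      _ ≤ 1 := le_refl _
  · rw [stop_of_chance hk, zero_add]
    calc ∑ v, G.step σ u v * f v ≤ ∑ v, G.step σ u v * 1 :=
          Finset.sum_le_sum fun v _ => mul_le_mul_of_nonneg_left (hf v) (step_nonneg hG hσ u v)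
      _ = ∑ v, (G.prob u v : ℝ) := by
          refine Finset.sum_congr rfl fun v _ => ?_
          rw [step_of_chance hk, mul_one]
      _ = 1 := by exact_mod_cast hG.chance_sum u hk
      _ ≤ 1 := le_refl _
  · rw [stop_of_terminal hk]
    have : ∑ v, G.step σ u v * f v = 0 :=
      Finset.sum_eq_zero fun v _ => by rw [step_of_terminal hk, zero_mul]
    rw [this, add_zero]
    exact_mod_cast hG.reward_le_one u hk i

lemma value_zero (i : ι) (u : V) : G.value σ i 0 u = G.stop i u := rfl

lemma value_succ (i : ι) (t : ℕ) (u : V) :
    G.value σ i (t + 1) u = G.stop i u + ∑ v, G.step σ u v * G.value σ i t v := rfl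

lemma value_nonneg (hG : G.Valid) (hσ : G.IsProfile σ) (i : ι) (t : ℕ) (u : V) :
    0 ≤ G.value σ i t u := by
  induction t generalizing u with
  | zero => exact stop_nonneg hG i u
  | succ t ih =>
    rw [value_succ]
    exact add_nonneg (stop_nonneg hG i u)
      (Finset.sum_nonneg fun v _ => mul_nonneg (step_nonneg hG hσ u v) (ih v))

lemma value_le_one (hG : G.Valid) (hσ : G.IsProfile σ) (i : ι) (t : ℕ) (u : V) :
    G.value σ i t u ≤ 1 := by
  induction t generalizing u with
  | zero =>
    have := update_le_one hG hσ i u (fun _ => 0) (fun _ => zero_le_one)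
    simpa [value_zero] using this
  | succ t ih => exact update_le_one hG hσ i u _ ih

lemma value_mono_step (hG : G.Valid) (hσ : G.IsProfile σ) (i : ι) (t : ℕ) (u : V) :
    G.value σ i t u ≤ G.value σ i (t + 1) u := by
  induction t generalizing u with
  | zero =>
    rw [value_succ, value_zero]
    exact le_add_of_nonneg_right
      (Finset.sum_nonneg fun v _ => mul_nonneg (step_nonneg hG hσ u v)
        (value_nonneg hG hσ i 0 v))
  | succ t ih =>
    rw [value_succ, value_succ]
    exact add_le_add le_rfl
      (Finset.sum_le_sum fun v _ => mul_le_mul_of_nonneg_left (ih v) (step_nonneg hG hσ u v))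

lemma value_mono (hG : G.Valid) (hσ : G.IsProfile σ) (i : ι) (u : V) :
    Monotone fun t => G.value σ i t u :=
  monotone_nat_of_le_succ fun t => value_mono_step hG hσ i t u

/-- The expected payoff of player `i` from `u`. -/
noncomputable def val (G : Game ι V) (σ : V → V → ℝ) (i : ι) (u : V) : ℝ :=
  ⨆ t : ℕ, G.value σ i t u

lemma payoff_eq_val (i : ι) : G.payoff σ i = G.val σ i G.init := rfl

lemma bddAbove_value (hG : G.Valid) (hσ : G.IsProfile σ) (i : ι) (u : V) :
    BddAbove (Set.range fun t => G.value σ i t u) :=
  ⟨1, by rintro _ ⟨t, rfl⟩; exact value_le_one hG hσ i t u⟩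

lemma tendsto_value (hG : G.Valid) (hσ : G.IsProfile σ) (i : ι) (u : V) :
    Tendsto (fun t => G.value σ i t u) atTop (𝓝 (G.val σ i u)) :=
  tendsto_atTop_ciSup (value_mono hG hσ i u) (bddAbove_value hG hσ i u)

lemma val_nonneg (hG : G.Valid) (hσ : G.IsProfile σ) (i : ι) (u : V) : 0 ≤ G.val σ i u :=
  ge_of_tendsto' (tendsto_value hG hσ i u) fun t => value_nonneg hG hσ i t u

lemma val_le_one (hG : G.Valid) (hσ : G.IsProfile σ) (i : ι) (u : V) : G.val σ i u ≤ 1 :=
  le_of_tendsto' (tendsto_value hG hσ i u) fun t => value_le_one hG hσ i t u

/-- Bellman equation for the payoffs of a stationary profile. -/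
lemma val_eq (hG : G.Valid) (hσ : G.IsProfile σ) (i : ι) (u : V) :
    G.val σ i u = G.stop i u + ∑ v, G.step σ u v * G.val σ i v := by
  have h1 : Tendsto (fun t => G.value σ i (t + 1) u) atTop (𝓝 (G.val σ i u)) :=
    (tendsto_add_atTop_iff_nat 1).2 (tendsto_value hG hσ i u)
  have h2 : Tendsto (fun t => G.value σ i (t + 1) u) atTop
      (𝓝 (G.stop i u + ∑ v, G.step σ u v * G.val σ i v)) := by
    simp only [value_succ]
    exact tendsto_const_nhds.add
      (tendsto_finsetSum _ fun v _ => tendsto_const_nhds.mul (tendsto_value hG hσ i v))
  exact tendsto_nhds_unique h1 h2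

/-- A nonnegative super-solution bounds the payoff. -/
lemma val_le_of_super (hG : G.Valid) (hσ : G.IsProfile σ) (i : ι) (h : V → ℝ)
    (h0 : ∀ u, 0 ≤ h u) (hs : ∀ u, G.stop i u + ∑ v, G.step σ u v * h v ≤ h u) (u : V) :
    G.val σ i u ≤ h u := by
  have key : ∀ t u, G.value σ i t u ≤ h u := by
    intro t
    induction t with
    | zero =>
      intro u
      refine le_trans ?_ (hs u)
      rw [value_zero]
      exact le_add_of_nonneg_right
        (Finset.sum_nonneg fun v _ => mul_nonneg (step_nonneg hG hσ u v) (h0 v))
    | succ t ih =>
      intro u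
      refine le_trans ?_ (hs u)
      rw [value_succ]
      exact add_le_add le_rfl
        (Finset.sum_le_sum fun v _ => mul_le_mul_of_nonneg_left (ih v) (step_nonneg hG hσ u v))
  exact le_of_tendsto' (tendsto_value hG hσ i u) fun t => key t u

/-- A nonnegative super-solution for the deviator bounds every deviation payoff. -/
lemma devPayoff_le_of_super (hG : G.Valid) (hσ : G.IsProfile σ) (i : ι) (h : V → ℝ)
    (h0 : ∀ u, 0 ≤ h u)
    (hterm : ∀ u, G.kind u = Kind.terminal → (G.reward u i : ℝ) ≤ h u)
    (hchance : ∀ u, G.kind u = Kind.chance → ∑ v, (G.prob u v : ℝ) * h v ≤ h u)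
    (hother : ∀ u j, G.kind u = Kind.player j → j ≠ i → ∑ v, σ u v * h v ≤ h u)
    (hown : ∀ u, G.kind u = Kind.player i → ∀ v, G.adj u v = true → h v ≤ h u)
    (τ : List V → V → ℝ) (hτ : G.IsStrategy i τ) : G.devPayoff σ i τ ≤ h G.init := by
  classical
  have key : ∀ t hist u, G.devValue σ i τ t hist u ≤ h u := by
    intro t
    induction t with
    | zero =>
      intro hist u
      show G.stop i u ≤ h u
      rcases hk : G.kind u with j | _ | _
      · rw [stop_of_player hk]; exact h0 u
      · rw [stop_of_chance hk]; exact h0 u
      · rw [stop_of_terminal hk]; exact hterm u hk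
    | succ t ih =>
      intro hist u
      show G.stop i u + ∑ v, G.devStep σ i τ hist u v * G.devValue σ i τ t (u :: hist) v ≤ h u
      rcases hk : G.kind u with j | _ | _
      · rw [stop_of_player hk, zero_add]
        by_cases hj : j = i
        · subst hj
          have hd := hτ hist u hk
          calc ∑ v, G.devStep σ j τ hist u v * G.devValue σ j τ t (u :: hist) v
              ≤ ∑ v, τ (u :: hist) v * h u := by
                refine Finset.sum_le_sum fun v _ => ?_
                have hstep : G.devStep σ j τ hist u v = τ (u :: hist) v := by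
                  simp [devStep, hk]
                rw [hstep]
                by_cases ha : G.adj u v = true
                · exact mul_le_mul_of_nonneg_left ((ih _ v).trans (hown u hk v ha))
                    (hd.nonneg v)
                · have : τ (u :: hist) v = 0 := hd.supp v (by simpa using ha)
                  rw [this, zero_mul, zero_mul]
            _ = h u := by rw [← Finset.sum_mul, hd.sum_eq, one_mul]
        · have hne : G.kind u ≠ Kind.player i := by
            rw [hk]; intro hc; exact hj (Kind.player.inj hc)
          calc ∑ v, G.devStep σ i τ hist u v * G.devValue σ i τ t (u :: hist) v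
              ≤ ∑ v, σ u v * h v := by
                refine Finset.sum_le_sum fun v _ => ?_
                have hstep : G.devStep σ i τ hist u v = σ u v := by
                  simp [devStep, hne, step_of_player hk]
                rw [hstep]
                exact mul_le_mul_of_nonneg_left (ih _ v) ((hσ u j hk).nonneg v)
            _ ≤ h u := hother u j hk hj
      · rw [stop_of_chance hk, zero_add]
        have hne : G.kind u ≠ Kind.player i := by rw [hk]; intro hc; cases hc
        calc ∑ v, G.devStep σ i τ hist u v * G.devValue σ i τ t (u :: hist) v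
            ≤ ∑ v, (G.prob u v : ℝ) * h v := by
              refine Finset.sum_le_sum fun v _ => ?_
              have hstep : G.devStep σ i τ hist u v = (G.prob u v : ℝ) := by
                simp [devStep, hne, step_of_chance hk]
              rw [hstep]
              exact mul_le_mul_of_nonneg_left (ih _ v)
                (by exact_mod_cast hG.chance_nonneg u hk v)
          _ ≤ h u := hchance u hk
      · rw [stop_of_terminal hk]
        have hne : G.kind u ≠ Kind.player i := by rw [hk]; intro hc; cases hc
        have hz : ∑ v, G.devStep σ i τ hist u v * G.devValue σ i τ t (u :: hist) v = 0 :=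
          Finset.sum_eq_zero fun v _ => by
            have hstep : G.devStep σ i τ hist u v = 0 := by
              simp [devStep, hne, step_of_terminal hk]
            rw [hstep, zero_mul]
        rw [hz, add_zero]
        exact hterm u hk
  exact ciSup_le fun t => key t [] G.init

/-- A stationary deviation: if `σ'` differs from `σ` only at vertices of player `i`, then the
payoff of `i` under `σ'` is a deviation payoff. -/
lemma payoff_le_of_isEpsNE {ε : ℝ} (hNE : G.IsEpsNE ε σ) {σ' : V → V → ℝ} (i : ι)
    (hσ' : G.IsProfile σ') (heq : ∀ u, G.kind u ≠ Kind.player i → σ' u = σ u) :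
    G.payoff σ' i ≤ G.payoff σ i + ε := by
  classical
  let τ : List V → V → ℝ := fun h v => match h with
    | [] => 0
    | u :: _ => σ' u v
  have hτ : G.IsStrategy i τ := fun h u hu => hσ' u i hu
  have key : ∀ t hist u, G.devValue σ i τ t hist u = G.value σ' i t u := by
    intro t
    induction t with
    | zero => intro hist u; rfl
    | succ t ih =>
      intro hist u
      show G.stop i u + ∑ v, G.devStep σ i τ hist u v * G.devValue σ i τ t (u :: hist) v =
        G.stop i u + ∑ v, G.step σ' u v * G.value σ' i t v
      congr 1
      refine Finset.sum_congr rfl fun v _ => ?_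
      rw [ih]
      congr 1
      by_cases hu : G.kind u = Kind.player i
      · simp [devStep, hu, step_of_player hu, τ]
      · have : G.devStep σ i τ hist u v = G.step σ u v := by simp [devStep, hu]
        rw [this]
        unfold step
        rw [heq u hu]
  have h := hNE i τ hτ
  have e : G.devPayoff σ i τ = G.payoff σ' i := by
    unfold devPayoff payoff
    congr 1
    funext t
    exact key t [] G.init
  rwa [e] at h

end Game

end Pool.Agent.Work.MP_3b7dc8_lc
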