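import Mathlib

/-!
# Turn-based stochastic games with terminal rewards: definitions

`ι` is the finite set of players, `V` the finite set of vertices.
-/

set_option autoImplicit false

open scoped BigOperators

namespace Pool.Agent.Work.MP_3b7dc8_lc

/-- The kind of a vertex: owned by a player, stochastic, or terminal. -/
inductive Kind (ι : Type)
  | player (i : ι)
  | chance
  | terminal

/-- A turn-based stochastic game with player set `ι` on a directed graph with vertex set `V`.
`adj u v = true` means that there is an edge from `u` to `v`; `prob u` is the distribution of a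
stochastic vertex `u` on its out-edges; `reward u` is the reward vector of a terminal `u`. -/
structure Game (ι V : Type) where
  kind : V → Kind ι
  adj : V → V → Bool
  prob : V → V → ℚ
  reward : V → ι → ℚ
  init : V

variable {ι V : Type}

namespace Game

/-- Well-formedness: player vertices have an out-neighbour, stochastic vertices carry a
probability distribution on their out-neighbours, terminal rewards lie in `[0,1]`. -/
structure Valid [Fintype V] (G : Game ι V) : Prop where
  player_out : ∀ u i, G.kind u = Kind.player i → ∃ v, G.adj u v = true
  chance_nonneg : ∀ u, G.kind u = Kind.chance → ∀ v, 0 ≤ G.prob u v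
  chance_supp : ∀ u, G.kind u = Kind.chance → ∀ v, G.adj u v = false → G.prob u v = 0
  chance_sum : ∀ u, G.kind u = Kind.chance → ∑ v, G.prob u v = 1
  reward_nonneg : ∀ u, G.kind u = Kind.terminal → ∀ i, 0 ≤ G.reward u i
  reward_le_one : ∀ u, G.kind u = Kind.terminal → ∀ i, G.reward u i ≤ 1

/-- `f` is a probability distribution on the out-neighbours of `u`. -/
structure IsDistAt [Fintype V] (G : Game ι V) (u : V) (f : V → ℝ) : Prop where
  nonneg : ∀ v, 0 ≤ f v
  supp : ∀ v, G.adj u v = false → f v = 0
  sum_eq : ∑ v, f v = 1

/-- A stationary strategy profile: at every player vertex `u`, the owner of `u` uses the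
distribution `σ u` on the out-neighbours of `u` (the values of `σ` at the other vertices are
irrelevant). -/
def IsProfile [Fintype V] (G : Game ι V) (σ : V → V → ℝ) : Prop :=
  ∀ u i, G.kind u = Kind.player i → G.IsDistAt u (σ u)

/-- Reward of player `i` when the play is at `u`: the terminal reward, and `0` elsewhere. -/
def stop (G : Game ι V) (i : ι) (u : V) : ℝ :=
  match G.kind u with
  | Kind.terminal => (G.reward u i : ℝ)
  | _ => 0

/-- One-step transition probabilities under the stationary profile `σ` (nothing happens at
terminal vertices). -/
def step (G : Game ι V) (σ : V → V → ℝ) (u v : V) : ℝ :=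
  match G.kind u with
  | Kind.player _ => σ u v
  | Kind.chance => (G.prob u v : ℝ)
  | Kind.terminal => 0

/-- Expected reward of player `i` collected within `t` steps from `u` under `σ`. -/
def value [Fintype V] (G : Game ι V) (σ : V → V → ℝ) (i : ι) : ℕ → V → ℝ
  | 0, u => G.stop i u
  | t + 1, u => G.stop i u + ∑ v, G.step σ u v * value G σ i t v

/-- The expected payoff `E_i(σ)`: the expected terminal reward of player `i` from the initial
vertex (`0` is obtained if no terminal vertex is reached). -/
noncomputable def payoff [Fintype V] (G : Game ι V) (σ : V → V → ℝ) (i : ι) : ℝ :=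
  ⨆ t : ℕ, G.value σ i t G.init

/-- An arbitrary (history dependent, randomised) strategy of player `i`: `τ h` is the
distribution used when `h` is the list of visited vertices, the current vertex being the head. -/
def IsStrategy [Fintype V] (G : Game ι V) (i : ι) (τ : List V → V → ℝ) : Prop :=
  ∀ h u, G.kind u = Kind.player i → G.IsDistAt u (τ (u :: h))

open Classical in
/-- One-step transition probabilities when player `i` deviates to `τ`, the past (before the
current vertex `u`) being `h`. -/
noncomputable def devStep (G : Game ι V) (σ : V → V → ℝ) (i : ι) (τ : List V → V → ℝ)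
    (h : List V) (u v : V) : ℝ :=
  if G.kind u = Kind.player i then τ (u :: h) v else G.step σ u v

/-- Expected reward of player `i` within `t` steps when player `i` uses `τ` and the others `σ`. -/
noncomputable def devValue [Fintype V] (G : Game ι V) (σ : V → V → ℝ) (i : ι)
    (τ : List V → V → ℝ) : ℕ → List V → V → ℝ
  | 0, _, u => G.stop i u
  | t + 1, h, u => G.stop i u + ∑ v, G.devStep σ i τ h u v * devValue G σ i τ t (u :: h) v

/-- The payoff of player `i` after the unilateral deviation to `τ`. -/
noncomputable def devPayoff [Fintype V] (G : Game ι V) (σ : V → V → ℝ) (i : ι)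
    (τ : List V → V → ℝ) : ℝ :=
  ⨆ t : ℕ, G.devValue σ i τ t [] G.init

/-- `σ` is an `ε`-Nash equilibrium: no player gains more than `ε` by a unilateral deviation. -/
def IsEpsNE [Fintype V] (G : Game ι V) (ε : ℝ) (σ : V → V → ℝ) : Prop :=
  ∀ i τ, G.IsStrategy i τ → G.devPayoff σ i τ ≤ G.payoff σ i + ε

/-- `σ` satisfies the payoff constraints `x ≤ E(σ) ≤ y` up to an additive error `δ`. -/
def Meets [Fintype V] (G : Game ι V) (x y : ι → ℚ) (δ : ℝ) (σ : V → V → ℝ) : Prop :=
  ∀ i, (x i : ℝ) - δ ≤ G.payoff σ i ∧ G.payoff σ i ≤ (y i : ℝ) + δ

/-- Every probability used by `σ` at a player vertex is an integer multiple of `2^(-L)`. -/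
def FixedPoint (G : Game ι V) (L : ℕ) (σ : V → V → ℝ) : Prop :=
  ∀ u i, G.kind u = Kind.player i → ∀ v, ∃ m : ℤ, σ u v = (m : ℝ) / 2 ^ L

end Game

/-- Binary length of a rational number (numerator, denominator and sign). -/
def bits (q : ℚ) : ℕ := Nat.size q.num.natAbs + Nat.size q.den + 1

/-- Total binary length of the input: adjacency matrix, kinds of the vertices, initial vertex,
probabilities, rewards, constraint vectors and `ε`. -/
def inputSize [Fintype ι] [Fintype V] (G : Game ι V) (x y : ι → ℚ) (ε : ℚ) : ℕ :=
  Fintype.card V * Fintype.card V
    + Fintype.card V * (Nat.size (Fintype.card ι) + 2)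
    + Nat.size (Fintype.card V)
    + ∑ u, ∑ v, bits (G.prob u v)
    + ∑ u, ∑ i, bits (G.reward u i)
    + ∑ i, (bits (x i) + bits (y i))
    + bits ε

end Pool.Agent.Work.MP_3b7dc8_lc
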