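import Pool.Agent.Work.MP_3b7dc8_lc.Basic

/-!
# The family of games
-/

set_option autoImplicit false
set_option linter.unusedSectionVars false

open scoped BigOperators Topology
open Filter

namespace Pool.Agent.Work.MP_3b7dc8_lc

namespace Family

/-- Vertices. `dec 0` belongs to player `J`, `dec (i+1)` to player `D i`; `lvl 0` is a terminal,
`lvl (i+1)` belongs to `O`. -/
inductive Vx (n : ℕ)
  | dec (j : Fin (n + 1))
  | lvl (j : Fin (n + 1))
  | s (i : Fin n)
  | hub (i : Fin n)
  | hubJ
  | hubStar
  | v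
  | z
  | tZ
  | tJ
  | tT
  deriving DecidableEq, Fintype

/-- Players. -/
inductive Pl (n : ℕ)
  | O
  | J
  | D (i : Fin n)
  deriving DecidableEq, Fintype

variable {n : ℕ}

/-- Kinds of the vertices. -/
def kind : Vx n → Kind (Pl n)
  | .dec j => Fin.cases (Kind.player Pl.J) (fun i => Kind.player (Pl.D i)) j
  | .lvl j => Fin.cases Kind.terminal (fun _ => Kind.player Pl.O) j
  | .s i => Kind.player (Pl.D i)
  | .hub _ => Kind.chance
  | .hubJ => Kind.chance
  | .hubStar => Kind.chance
  | .v => Kind.player Pl.O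
  | .z => Kind.player Pl.O
  | .tZ => Kind.terminal
  | .tJ => Kind.terminal
  | .tT => Kind.terminal

/-- The two successors of a nonterminal vertex. -/
def suc : Vx n → Option (Vx n × Vx n)
  | .dec j => Fin.cases (some (Vx.hubJ, Vx.hubStar))
      (fun i => some (Vx.hub i, Vx.dec i.castSucc)) j
  | .lvl j => Fin.cases none (fun i => some (Vx.s i, Vx.dec (Fin.last n))) j
  | .s i => some (Vx.tT, Vx.lvl i.castSucc)
  | .hub i => some (Vx.lvl i.succ, Vx.lvl i.castSucc)
  | .hubJ => some (Vx.v, Vx.lvl (Fin.last n))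
  | .hubStar => some (Vx.z, Vx.v)
  | .v => some (Vx.tJ, Vx.dec (Fin.last n))
  | .z => some (Vx.tZ, Vx.dec (Fin.last n))
  | .tZ => none
  | .tJ => none
  | .tT => none

/-- Rewards at the terminals. -/
def reward : Vx n → Pl n → ℚ
  | .tZ, .O => 1
  | .tZ, .J => 0
  | .tZ, .D _ => 1 / 8
  | .tJ, .O => 1
  | .tJ, .J => 1
  | .tJ, .D _ => 1 / 8
  | .tT, .O => 0
  | .tT, .J => 1
  | .tT, .D _ => 1
  | _, _ => 0

/-- The game. -/
def game (n : ℕ) : Game (Pl n) (Vx n) where
  kind := kind
  adj u w := match suc u with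
    | none => false
    | some (a, b) => decide (w = a) || decide (w = b)
  prob u w := match kind u, suc u with
    | Kind.chance, some (a, b) => if w = a ∨ w = b then 1 / 2 else 0
    | _, _ => 0
  reward := reward
  init := Vx.dec (Fin.last n)

/-- The constraint vector (lower and upper bounds coincide). -/
def target : Pl n → ℚ
  | .O => 1
  | .J => 1 / 8
  | .D _ => 1 / 8

@[simp] lemma kind_dec_zero : kind (Vx.dec (0 : Fin (n + 1))) = Kind.player Pl.J := rfl
@[simp] lemma kind_dec_succ (i : Fin n) : kind (Vx.dec i.succ) = Kind.player (Pl.D i) := rfl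
@[simp] lemma kind_lvl_zero : kind (Vx.lvl (0 : Fin (n + 1))) = Kind.terminal := rfl
@[simp] lemma kind_lvl_succ (i : Fin n) : kind (Vx.lvl i.succ) = Kind.player Pl.O := rfl

@[simp] lemma suc_dec_zero :
    suc (Vx.dec (0 : Fin (n + 1))) = some (Vx.hubJ, Vx.hubStar) := rfl
@[simp] lemma suc_dec_succ (i : Fin n) :
    suc (Vx.dec i.succ) = some (Vx.hub i, Vx.dec i.castSucc) := rfl
@[simp] lemma suc_lvl_zero : suc (Vx.lvl (0 : Fin (n + 1))) = none := rfl
@[simp] lemma suc_lvl_succ (i : Fin n) :
    suc (Vx.lvl i.succ) = some (Vx.s i, Vx.dec (Fin.last n)) := rfl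

/-- The two successors are distinct. -/
lemma suc_ne {u a b : Vx n} (h : suc u = some (a, b)) : a ≠ b := by
  cases u with
  | dec j =>
    induction j using Fin.cases with
    | zero => simp at h; rcases h with ⟨rfl, rfl⟩; simp
    | succ i => simp at h; rcases h with ⟨rfl, rfl⟩; simp
  | lvl j =>
    induction j using Fin.cases with
    | zero => simp at h
    | succ i => simp at h; rcases h with ⟨rfl, rfl⟩; simp
  | s i => simp [suc] at h; rcases h with ⟨rfl, rfl⟩; simp
  | hub i =>
    simp [suc] at h; rcases h with ⟨rfl, rfl⟩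
    intro hc
    have := Vx.lvl.inj hc
    exact absurd this (Fin.castSucc_lt_succ (i := i)).ne'
  | hubJ => simp [suc] at h; rcases h with ⟨rfl, rfl⟩; simp
  | hubStar => simp [suc] at h; rcases h with ⟨rfl, rfl⟩; simp
  | v => simp [suc] at h; rcases h with ⟨rfl, rfl⟩; simp
  | z => simp [suc] at h; rcases h with ⟨rfl, rfl⟩; simp
  | tZ => simp [suc] at h
  | tJ => simp [suc] at h
  | tT => simp [suc] at h

/-- Nonterminal vertices have successors. -/
lemma exists_suc {u : Vx n} (h : kind u ≠ Kind.terminal) : ∃ a b, suc u = some (a, b) := by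
  cases u with
  | dec j =>
    induction j using Fin.cases with
    | zero => exact ⟨_, _, rfl⟩
    | succ i => exact ⟨_, _, rfl⟩
  | lvl j =>
    induction j using Fin.cases with
    | zero => simp at h
    | succ i => exact ⟨_, _, rfl⟩
  | tZ => simp [kind] at h
  | tJ => simp [kind] at h
  | tT => simp [kind] at h
  | _ => exact ⟨_, _, rfl⟩

@[simp] lemma game_kind (u : Vx n) : (game n).kind u = kind u := rfl
@[simp] lemma game_reward (u : Vx n) (i : Pl n) : (game n).reward u i = reward u i := rfl
@[simp] lemma game_init : (game n).init = Vx.dec (Fin.last n) := rfl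

lemma adj_iff {u a b w : Vx n} (h : suc u = some (a, b)) :
    (game n).adj u w = true ↔ w = a ∨ w = b := by
  simp [game, h]

lemma adj_false {u a b w : Vx n} (h : suc u = some (a, b)) :
    (game n).adj u w = false ↔ w ≠ a ∧ w ≠ b := by
  simp [game, h]

lemma prob_eq {u a b w : Vx n} (hk : kind u = Kind.chance) (h : suc u = some (a, b)) :
    (game n).prob u w = if w = a ∨ w = b then 1 / 2 else 0 := by
  simp [game, h, hk]

/-- Sum over the vertices of a function supported at two vertices. -/
lemma sum_two {R : Type} [AddCommMonoid R] {a b : Vx n} (hab : a ≠ b) (f : Vx n → R)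
    (hf : ∀ w, w ≠ a → w ≠ b → f w = 0) : ∑ w, f w = f a + f b :=
  Fintype.sum_eq_add a b hab fun w hw => hf w hw.1 hw.2

lemma game_valid : (game n).Valid where
  player_out := by
    intro u i hu
    have hu' : kind u = Kind.player i := hu
    obtain ⟨a, b, h⟩ := exists_suc (u := u) (by rw [hu']; simp)
    exact ⟨a, (adj_iff h).2 (Or.inl rfl)⟩
  chance_nonneg := by
    intro u hu w
    have hu' : kind u = Kind.chance := hu
    obtain ⟨a, b, h⟩ := exists_suc (u := u) (by rw [hu']; simp)
    rw [prob_eq hu' h]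
    split <;> norm_num
  chance_supp := by
    intro u hu w hw
    have hu' : kind u = Kind.chance := hu
    obtain ⟨a, b, h⟩ := exists_suc (u := u) (by rw [hu']; simp)
    rw [prob_eq hu' h, if_neg]
    rw [adj_false h] at hw
    tauto
  chance_sum := by
    intro u hu
    have hu' : kind u = Kind.chance := hu
    obtain ⟨a, b, h⟩ := exists_suc (u := u) (by rw [hu']; simp)
    rw [sum_two (suc_ne h)]
    · rw [prob_eq hu' h, prob_eq hu' h]; norm_num
    · intro w h1 h2
      rw [prob_eq hu' h, if_neg (by tauto)]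
  reward_nonneg := by
    intro u _ i
    show 0 ≤ reward u i
    cases u <;> cases i <;> simp [reward]
  reward_le_one := by
    intro u _ i
    show reward u i ≤ 1
    cases u <;> cases i <;> simp [reward] <;> norm_num

variable {σ : Vx n → Vx n → ℝ}

lemma sum_player (hσ : (game n).IsProfile σ) {u a b : Vx n} {i : Pl n}
    (hk : kind u = Kind.player i) (h : suc u = some (a, b)) (f : Vx n → ℝ) :
    ∑ w, σ u w * f w = σ u a * f a + (1 - σ u a) * f b := by
  have hd := hσ u i hk
  have h0 : ∀ w, w ≠ a → w ≠ b → σ u w = 0 := fun w h1 h2 =>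
    hd.supp w ((adj_false h).2 ⟨h1, h2⟩)
  have h1 : σ u a + σ u b = 1 := by
    have := hd.sum_eq
    rwa [sum_two (suc_ne h) (σ u) h0] at this
  rw [sum_two (suc_ne h)]
  · rw [← h1]; ring
  · intro w hw1 hw2
    rw [h0 w hw1 hw2, zero_mul]

lemma prob_mem (hσ : (game n).IsProfile σ) {u a b : Vx n} {i : Pl n}
    (hk : kind u = Kind.player i) (h : suc u = some (a, b)) :
    0 ≤ σ u a ∧ 0 ≤ 1 - σ u a := by
  have hd := hσ u i hk
  have h0 : ∀ w, w ≠ a → w ≠ b → σ u w = 0 := fun w h1 h2 =>
    hd.supp w ((adj_false h).2 ⟨h1, h2⟩)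
  have h1 : σ u a + σ u b = 1 := by
    have := hd.sum_eq
    rwa [sum_two (suc_ne h) (σ u) h0] at this
  refine ⟨hd.nonneg a, ?_⟩
  have := hd.nonneg b
  linarith

lemma sum_chance {u a b : Vx n} (hk : kind u = Kind.chance) (h : suc u = some (a, b))
    (f : Vx n → ℝ) :
    ∑ w, (((game n).prob u w : ℚ) : ℝ) * f w = (f a + f b) / 2 := by
  rw [sum_two (suc_ne h)]
  · rw [prob_eq hk h, prob_eq hk h]; simp; ring
  · intro w hw1 hw2
    rw [prob_eq hk h, if_neg (by tauto)]; simp

/-- Bellman equation at a player vertex. -/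
lemma val_player (hσ : (game n).IsProfile σ) (i : Pl n) {u a b : Vx n} {j : Pl n}
    (hk : kind u = Kind.player j) (h : suc u = some (a, b)) :
    (game n).val σ i u = σ u a * (game n).val σ i a + (1 - σ u a) * (game n).val σ i b := by
  rw [Game.val_eq game_valid hσ i u, Game.stop_of_player (G := game n) hk, zero_add,
    ← sum_player hσ hk h]
  exact Finset.sum_congr rfl fun w _ => by rw [Game.step_of_player (G := game n) hk]

/-- Bellman equation at a stochastic vertex. -/
lemma val_chance (hσ : (game n).IsProfile σ) (i : Pl n) {u a b : Vx n}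
    (hk : kind u = Kind.chance) (h : suc u = some (a, b)) :
    (game n).val σ i u = ((game n).val σ i a + (game n).val σ i b) / 2 := by
  rw [Game.val_eq game_valid hσ i u, Game.stop_of_chance (G := game n) hk, zero_add,
    ← sum_chance hk h]
  exact Finset.sum_congr rfl fun w _ => by rw [Game.step_of_chance (G := game n) hk]

/-- Bellman equation at a terminal vertex. -/
lemma val_terminal (hσ : (game n).IsProfile σ) (i : Pl n) {u : Vx n}
    (hk : kind u = Kind.terminal) : (game n).val σ i u = (reward u i : ℝ) := by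
  rw [Game.val_eq game_valid hσ i u, Game.stop_of_terminal (G := game n) hk]
  have : ∑ w, (game n).step σ u w * (game n).val σ i w = 0 :=
    Finset.sum_eq_zero fun w _ => by rw [Game.step_of_terminal (G := game n) hk, zero_mul]
  rw [this, add_zero]
  rfl

end Family

end Pool.Agent.Work.MP_3b7dc8_lc
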