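import Pool.Agent.Work.MP_3b7dc8_lc.Tests

/-!
# The lower bound: every approximate constrained equilibrium uses a tiny probability
-/

set_option autoImplicit false
set_option linter.unusedSectionVars false

open scoped BigOperators Topology
open Filter

namespace Pool.Agent.Work.MP_3b7dc8_lc

namespace Family

variable {n : ℕ} {σ : Vx n → Vx n → ℝ}

lemma pr_devJ : pr (devJ σ) = pr σ := by funext i; simp [pr, devJ]
lemma cl_devJ : cl (devJ σ) = cl σ := by funext i; simp [cl, devJ]
lemma tk_devJ : tk (devJ σ) = tk σ := by funext i; simp [tk, devJ, Fin.succ_ne_zero]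
lemma pv_devJ : pv (devJ σ) = pv σ := by simp [pv, devJ]
lemma tkJ_devJ : tkJ (devJ σ) = 1 := by simp [tkJ, devJ]
lemma PP_devJ : PP (devJ σ) = PP σ := by unfold PP; rw [pr_devJ, cl_devJ]
lemma OO_devJ : OO (devJ σ) = OO σ := by unfold OO; rw [tk_devJ]
lemma SS_devJ : SS (devJ σ) = SS σ := by unfold SS; rw [tk_devJ, PP_devJ]

lemma pr_devD (i : Fin n) : pr (devD σ i) = pr σ := by funext j; simp [pr, devD]
lemma cl_devD (i : Fin n) : cl (devD σ i) i = 1 := by simp [cl, devD]
lemma cl_devD_ne (i j : Fin n) (h : j ≠ i) : cl (devD σ i) j = cl σ j := by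
  simp [cl, devD, h]
lemma tk_devD (i : Fin n) : tk (devD σ i) i = 1 := by simp [tk, devD]
lemma tk_devD_ne (i j : Fin n) (h : j ≠ i) : tk (devD σ i) j = tk σ j := by
  simp [tk, devD, h]

lemma PP_devD (i : Fin n) (m : Fin (n + 1)) (hm : m ≤ i.castSucc) :
    PP (devD σ i) m = PP σ m := by
  induction m using Fin.induction with
  | zero => simp [PP]
  | succ j ih =>
    have hji : j < i := by
      have : (j.succ : Fin (n+1)) ≤ i.castSucc := hm
      rw [Fin.le_def] at this
      simpa [Nat.succ_le_iff] using this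
    have h1 : j.castSucc ≤ i.castSucc := by
      rw [Fin.le_def]; simpa using hji.le
    have e1 : PP (devD σ i) j.succ =
        pr (devD σ i) j * (1 - cl (devD σ i) j) * PP (devD σ i) j.castSucc := by simp [PP]
    have e2 : PP σ j.succ = pr σ j * (1 - cl σ j) * PP σ j.castSucc := by simp [PP]
    rw [e1, e2, pr_devD, cl_devD_ne i j hji.ne, ih h1]

/-- The `J` test in terms of the original profile. -/
lemma J_test (hσ : (game n).IsProfile σ) {x : ℝ} (hx : (game n).payoff (devJ σ) Pl.J ≤ x) :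
    OO σ (Fin.last n) * (pv σ * (1 - x)) ≤
      x * (SS σ (Fin.last n) + OO σ (Fin.last n) * PP σ (Fin.last n)) := by
  have hσ' := devJ_profile hσ
  have h := J_test_aux hσ' tkJ_devJ
  rw [OO_devJ, pv_devJ, SS_devJ, PP_devJ] at h
  have hO := OO_nonneg hσ (Fin.last n)
  have hp := (pv_mem hσ).1
  have hP := PP_nonneg hσ (Fin.last n)
  have hS : 0 ≤ SS σ (Fin.last n) := by
    have : ∀ j : Fin (n + 1), 0 ≤ SS σ j := by
      intro j
      induction j using Fin.induction with
      | zero => simp [SS]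
      | succ i ih =>
        have e1 : SS σ i.succ = tk σ i * (PP σ i.succ + PP σ i.castSucc)
          + (1 - tk σ i) * SS σ i.castSucc := by simp [SS]
        rw [e1]
        exact add_nonneg (mul_nonneg (tk_mem hσ i).1
          (add_nonneg (PP_nonneg hσ _) (PP_nonneg hσ _))) (mul_nonneg (tk_mem hσ i).2 ih)
    exact this _
  set x' := (game n).payoff (devJ σ) Pl.J
  have h1 : x' * (SS σ (Fin.last n) + OO σ (Fin.last n) * PP σ (Fin.last n)) ≤
      x * (SS σ (Fin.last n) + OO σ (Fin.last n) * PP σ (Fin.last n)) :=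
    mul_le_mul_of_nonneg_right hx (add_nonneg hS (mul_nonneg hO hP))
  have h2 : OO σ (Fin.last n) * (pv σ * (1 - x)) ≤ OO σ (Fin.last n) * (pv σ * (1 - x')) :=
    mul_le_mul_of_nonneg_left (mul_le_mul_of_nonneg_left (by linarith) hp) hO
  linarith

/-- The `D i` test in terms of the original profile. -/
lemma D_test (hσ : (game n).IsProfile σ) (i : Fin n) {x : ℝ}
    (hx : (game n).payoff (devD σ i) (Pl.D i) ≤ x)
    (hpos : ∀ m : Fin n, 0 < 1 - tk σ m) :
    pr σ i * (1 - x) ≤ x * PP σ i.castSucc := by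
  have hσ' := devD_profile hσ i
  have h := D_test_aux hσ' i (tk_devD i) (cl_devD i) (by
    intro m hm
    rw [tk_devD_ne i m hm.ne']
    exact hpos m)
  rw [pr_devD, PP_devD i _ le_rfl] at h
  have hp := (pr_mem hσ i).1
  have hP := PP_nonneg hσ i.castSucc
  set x' := (game n).payoff (devD σ i) (Pl.D i)
  have h1 : x' * PP σ i.castSucc ≤ x * PP σ i.castSucc := mul_le_mul_of_nonneg_right hx hP
  have h2 : pr σ i * (1 - x) ≤ pr σ i * (1 - x') :=
    mul_le_mul_of_nonneg_left (by linarith) hp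
  linarith

/-- Every `1/100`-equilibrium meeting the constraints up to `1/100` uses a nonzero probability
of at most `4^(-2^n)`. -/
theorem tiny (hσ : (game n).IsProfile σ) (hNE : (game n).IsEpsNE (1 / 100) σ)
    (hM : (game n).Meets target target (1 / 100) σ) :
    0 < pv σ ∧ pv σ ≤ (1 / 4) ^ (2 ^ n) := by
  have hO := hM Pl.O
  have hJ := hM Pl.J
  have hD := fun i => hM (Pl.D i)
  simp only [target] at hO hJ hD
  push_cast at hO hJ hD
  have hy1 : (game n).payoff σ Pl.O ≤ 1 := Game.val_le_one game_valid hσ _ _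
  have hE := O_eq hσ
  have hI := J_ineq hσ
  have hdevJ := Game.payoff_le_of_isEpsNE hNE Pl.J (devJ_profile hσ) (fun u hu => devJ_eq u hu)
  have hT := J_test hσ (x := 29 / 200) (by linarith [hJ.2])
  have hOO := OO_nonneg hσ (Fin.last n)
  have hpv := pv_mem hσ
  have hpz := pz_mem hσ
  have htJ := tkJ_mem hσ
  have hSX := SS_le_XX hσ (Fin.last n)
  have hPP := PP_nonneg hσ (Fin.last n)
  have hcase : OO σ (Fin.last n) * (pv σ + (1 - tkJ σ) * pz σ) ≠ 0 := by
    intro h0
    have := O_zero hσ h0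
    linarith [hO.1]
  generalize hy : (game n).payoff σ Pl.O = y at *
  generalize hxh : (game n).payoff σ Pl.J = xh at *
  generalize hX : XX σ (Fin.last n) = X at *
  generalize hS : SS σ (Fin.last n) = S at *
  have hQ : 0 ≤ OO σ (Fin.last n) * pv σ := mul_nonneg hOO hpv.1
  have hZ : 0 ≤ OO σ (Fin.last n) * ((1 - tkJ σ) * pz σ) :=
    mul_nonneg hOO (mul_nonneg htJ.2 hpz.1)
  have hE' : y * X = (1 - y) * (OO σ (Fin.last n) * pv σ +
      OO σ (Fin.last n) * ((1 - tkJ σ) * pz σ)) := by rw [hE]; ring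
  have hcase' : OO σ (Fin.last n) * pv σ + OO σ (Fin.last n) * ((1 - tkJ σ) * pz σ) ≠ 0 := by
    intro h; apply hcase; rw [← h]; ring
  have hOP : 0 ≤ OO σ (Fin.last n) * PP σ (Fin.last n) := mul_nonneg hOO hPP
  have hT' : OO σ (Fin.last n) * pv σ * (1 - 29 / 200) ≤
      29 / 200 * (S + OO σ (Fin.last n) * PP σ (Fin.last n)) := by
    have : OO σ (Fin.last n) * pv σ * (1 - 29 / 200) =
      OO σ (Fin.last n) * (pv σ * (1 - 29 / 200)) := by ring
    rw [this]; exact hT
  generalize hQd : OO σ (Fin.last n) * pv σ = Q at *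
  generalize hZd : OO σ (Fin.last n) * ((1 - tkJ σ) * pz σ) = Z at *
  -- X ≤ (Q + Z) / 99
  have hX1 : X ≤ (Q + Z) / 99 := by
    have hy0 : 99 / 100 ≤ y := by linarith [hO.1]
    have hle : y * X ≤ (1 / 100) * (Q + Z) := by
      rw [hE']
      exact mul_le_mul_of_nonneg_right (by linarith) (by linarith)
    by_cases hX0 : X ≤ 0
    · linarith
    · push Not at hX0
      have : 99 / 100 * X ≤ y * X := mul_le_mul_of_nonneg_right hy0 hX0.le
      linarith
  -- Z ≤ 10 Q
  have hZ1 : Z ≤ 10 * Q := by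
    have hxh0 : 23 / 200 ≤ xh := by linarith [hJ.1]
    have h1 : Z * (23 / 200) ≤ Z * xh := mul_le_mul_of_nonneg_left hxh0 hZ
    have h2 : Q * (1 - xh) ≤ Q * 1 := mul_le_mul_of_nonneg_left (by linarith) hQ
    linarith
  have hQpos : 0 < Q := by
    rcases hQ.lt_or_eq with h | h
    · exact h
    · exfalso
      apply hcase'
      have : Z = 0 := by linarith
      rw [this, ← h, add_zero]
  have hOpos : 0 < OO σ (Fin.last n) := by
    rcases hOO.lt_or_eq with h | h
    · exact h
    · rw [← h, zero_mul] at hQd; linarith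
  have hpvpos : 0 < pv σ := by
    rcases hpv.1.lt_or_eq with h | h
    · exact h
    · rw [← h, mul_zero] at hQd; linarith
  have hfin : pv σ ≤ PP σ (Fin.last n) * (1 / 4) := by
    have h1 : Q * (171 / 200) ≤ 29 / 200 * ((11 * Q) / 99 + OO σ (Fin.last n) *
        PP σ (Fin.last n)) := by
      have : S ≤ 11 * Q / 99 := by linarith
      linarith
    have h2 : Q ≤ (OO σ (Fin.last n) * PP σ (Fin.last n)) * (1 / 4) := by linarith
    rw [← hQd] at h2
    have h3 : OO σ (Fin.last n) * pv σ ≤ OO σ (Fin.last n) *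
        (PP σ (Fin.last n) * (1 / 4)) := by linarith
    exact le_of_mul_le_mul_left h3 hOpos
  -- the levels
  have hpos : ∀ m : Fin n, 0 < 1 - tk σ m := fun m => tk_lt_one hσ hOpos m
  have hstep : ∀ i : Fin n, PP σ i.succ ≤ (1 / 4) * (PP σ i.castSucc) ^ 2 := by
    intro i
    have hdev := Game.payoff_le_of_isEpsNE hNE (Pl.D i) (devD_profile hσ i)
      (fun u hu => devD_eq i u hu)
    have h := D_test hσ i (x := 29 / 200) (by linarith [(hD i).2]) hpos
    have e2 : PP σ i.succ = pr σ i * (1 - cl σ i) * PP σ i.castSucc := by simp [PP]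
    have hP := PP_nonneg hσ i.castSucc
    have hp := pr_mem hσ i
    have hc := cl_mem hσ i
    have h1 : pr σ i ≤ (1 / 4) * PP σ i.castSucc := by linarith
    have h2 : pr σ i * (1 - cl σ i) ≤ (1 / 4) * PP σ i.castSucc := by
      have : pr σ i * (1 - cl σ i) ≤ pr σ i * 1 :=
        mul_le_mul_of_nonneg_left (by linarith) hp.1
      linarith
    rw [e2]
    calc _ ≤ (1 / 4) * PP σ i.castSucc * PP σ i.castSucc := mul_le_mul_of_nonneg_right h2 hP
      _ = _ := by ring
  have hlev : ∀ j : Fin (n + 1), PP σ j * (1 / 4) ≤ (1 / 4) ^ (2 ^ (j : ℕ)) := by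
    intro j
    induction j using Fin.induction with
    | zero => simp [PP]
    | succ i ih =>
      have h1 := hstep i
      have hP := PP_nonneg hσ i.castSucc
      have h2 : (PP σ i.castSucc * (1 / 4)) ^ 2 ≤ ((1 / 4) ^ (2 ^ (i : ℕ))) ^ 2 := by
        have ih' : PP σ i.castSucc * (1 / 4) ≤ (1 / 4) ^ (2 ^ (i : ℕ)) := by simpa using ih
        exact pow_le_pow_left₀ (by linarith) ih' 2
      calc PP σ i.succ * (1 / 4) ≤ (1 / 4 * (PP σ i.castSucc) ^ 2) * (1 / 4) := by linarith
        _ = (PP σ i.castSucc * (1 / 4)) ^ 2 := by ring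
        _ ≤ ((1 / 4) ^ (2 ^ (i : ℕ))) ^ 2 := h2
        _ = (1 / 4) ^ (2 ^ ((i.succ : Fin (n + 1)) : ℕ)) := by
          rw [← pow_mul, Fin.val_succ, pow_succ]
  refine ⟨hpvpos, hfin.trans ?_⟩
  have := hlev (Fin.last n)
  simpa using this

end Family

end Pool.Agent.Work.MP_3b7dc8_lc
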