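import Pool.Agent.Work.MP_3b7dc8_lc.Upper

/-!
# The input size of the family is quadratic, and the final statement
-/

set_option autoImplicit false
set_option linter.unusedSectionVars false

open scoped BigOperators Topology
open Filter

namespace Pool.Agent.Work.MP_3b7dc8_lc

namespace Family

variable {n : ℕ}

/-- Injective code of the vertices. -/
def codeV : Vx n → Fin 11 × Fin (n + 1)
  | .dec j => (0, j)
  | .lvl j => (1, j)
  | .s i => (2, i.castSucc)
  | .hub i => (3, i.castSucc)
  | .hubJ => (4, 0)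
  | .hubStar => (5, 0)
  | .v => (6, 0)
  | .z => (7, 0)
  | .tZ => (8, 0)
  | .tJ => (9, 0)
  | .tT => (10, 0)

lemma codeV_injective : Function.Injective (codeV (n := n)) := by
  intro a b hab
  cases a <;> cases b <;> simp [codeV] at hab <;> simp_all

/-- Injective code of the players. -/
def codeP : Pl n → Fin 3 × Fin (n + 1)
  | .O => (0, 0)
  | .J => (1, 0)
  | .D i => (2, i.castSucc)

lemma codeP_injective : Function.Injective (codeP (n := n)) := by
  intro a b hab
  cases a <;> cases b <;> simp [codeP] at hab <;> simp_all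

lemma card_V : Fintype.card (Vx n) ≤ 11 * (n + 1) := by
  have := Fintype.card_le_of_injective _ (codeV_injective (n := n))
  simpa using this

lemma card_P : Fintype.card (Pl n) ≤ 3 * (n + 1) := by
  have := Fintype.card_le_of_injective _ (codeP_injective (n := n))
  simpa using this

lemma bits_zero : bits 0 ≤ 9 := by decide +kernel
lemma bits_one : bits 1 ≤ 9 := by decide +kernel
lemma bits_half : bits (1 / 2) ≤ 9 := by decide +kernel
lemma bits_eighth : bits (1 / 8) ≤ 9 := by decide +kernel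
lemma bits_hundredth : bits (1 / 100) ≤ 9 := by decide +kernel

lemma bits_prob (u w : Vx n) : bits ((game n).prob u w) ≤ 9 := by
  simp only [game]
  split
  · split_ifs
    · exact bits_half
    · exact bits_zero
  · exact bits_zero

lemma bits_reward (u : Vx n) (i : Pl n) : bits ((game n).reward u i) ≤ 9 := by
  show bits (reward u i) ≤ 9
  cases u <;> cases i <;>
    first
      | exact bits_zero
      | exact bits_one
      | exact bits_eighth

lemma bits_target (i : Pl n) : bits (target i) ≤ 9 := by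
  cases i
  · exact bits_one
  · exact bits_eighth
  · exact bits_eighth

lemma size_le_self (k : ℕ) : Nat.size k ≤ k := Nat.size_le.2 Nat.lt_two_pow_self

lemma inputSize_le : inputSize (game n) target target (1 / 100) ≤ 1700 * (n + 1) ^ 2 := by
  have hV := card_V (n := n)
  have hP := card_P (n := n)
  have h1 : ∑ u : Vx n, ∑ w : Vx n, bits ((game n).prob u w) ≤
      Fintype.card (Vx n) * (Fintype.card (Vx n) * 9) := by
    calc _ ≤ ∑ _u : Vx n, ∑ _w : Vx n, 9 :=
          Finset.sum_le_sum fun u _ => Finset.sum_le_sum fun w _ => bits_prob u w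
      _ = _ := by simp
  have h2 : ∑ u : Vx n, ∑ i : Pl n, bits ((game n).reward u i) ≤
      Fintype.card (Vx n) * (Fintype.card (Pl n) * 9) := by
    calc _ ≤ ∑ _u : Vx n, ∑ _i : Pl n, 9 :=
          Finset.sum_le_sum fun u _ => Finset.sum_le_sum fun i _ => bits_reward u i
      _ = _ := by simp
  have h3 : ∑ i : Pl n, (bits (target i) + bits (target i)) ≤ Fintype.card (Pl n) * 18 := by
    calc _ ≤ ∑ _i : Pl n, 18 := Finset.sum_le_sum fun i _ => by
            have := bits_target i
            omega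
      _ = _ := by simp
  have h4 := bits_hundredth
  have h5 : Nat.size (Fintype.card (Pl n)) ≤ 3 * (n + 1) := (size_le_self _).trans hP
  have h6 : Nat.size (Fintype.card (Vx n)) ≤ 11 * (n + 1) := (size_le_self _).trans hV
  unfold inputSize
  generalize Fintype.card (Vx n) = a at *
  generalize Fintype.card (Pl n) = b at *
  generalize Nat.size a = sa at *
  generalize Nat.size b = sb at *
  have m1 : a * a ≤ (11 * (n + 1)) * (11 * (n + 1)) := Nat.mul_le_mul hV hV
  have m2 : a * (sb + 2) ≤ (11 * (n + 1)) * (3 * (n + 1) + 2) :=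
    Nat.mul_le_mul hV (by omega)
  have m3 : a * (a * 9) ≤ (11 * (n + 1)) * ((11 * (n + 1)) * 9) :=
    Nat.mul_le_mul hV (Nat.mul_le_mul_right 9 hV)
  have m4 : a * (b * 9) ≤ (11 * (n + 1)) * ((3 * (n + 1)) * 9) :=
    Nat.mul_le_mul hV (Nat.mul_le_mul_right 9 hP)
  have m5 : b * 18 ≤ (3 * (n + 1)) * 18 := Nat.mul_le_mul_right 18 hP
  have hfin : (11 * (n + 1)) * (11 * (n + 1)) + (11 * (n + 1)) * (3 * (n + 1) + 2) +
      11 * (n + 1) + (11 * (n + 1)) * ((11 * (n + 1)) * 9) +
      (11 * (n + 1)) * ((3 * (n + 1)) * 9) + (3 * (n + 1)) * 18 + 9 ≤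
      1700 * (n + 1) ^ 2 := by
    nlinarith [Nat.zero_le n]
  linarith

end Family

lemma eval_mono (p : Polynomial ℕ) {a b : ℕ} (h : a ≤ b) : p.eval a ≤ p.eval b := by
  rw [Polynomial.eval_eq_sum, Polynomial.eval_eq_sum]
  exact Finset.sum_le_sum fun i _ => Nat.mul_le_mul_left _ (Nat.pow_le_pow_left h i)

lemma eval_le (p : Polynomial ℕ) {a : ℕ} (h : 1 ≤ a) :
    p.eval a ≤ p.eval 1 * a ^ p.natDegree := by
  rw [Polynomial.eval_eq_sum, Polynomial.eval_eq_sum]
  unfold Polynomial.sum
  rw [Finset.sum_mul]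
  refine Finset.sum_le_sum fun i hi => ?_
  show p.coeff i * a ^ i ≤ p.coeff i * 1 ^ i * a ^ p.natDegree
  rw [one_pow, mul_one]
  exact Nat.mul_le_mul_left _ (Nat.pow_le_pow_right h (Polynomial.le_natDegree_of_mem_supp i hi))

/-- Exponentials beat polynomials. -/
lemma exists_large (p : Polynomial ℕ) : ∃ n : ℕ, p.eval (1700 * (n + 1) ^ 2) ≤ 2 ^ n := by
  set c := p.eval 1 with hc
  set k := p.natDegree with hk
  have ht := tendsto_pow_const_div_const_pow_of_one_lt (2 * k) (one_lt_two : (1 : ℝ) < 2)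
  have ht' : Tendsto (fun n : ℕ => ((n + 1 : ℕ) : ℝ) ^ (2 * k) / 2 ^ (n + 1)) atTop (𝓝 0) :=
    (tendsto_add_atTop_iff_nat 1).2 ht
  have hpos : (0 : ℝ) < 1 / (2 * (c * 1700 ^ k) + 1) := by positivity
  obtain ⟨n, hn⟩ := (ht'.eventually (gt_mem_nhds hpos)).exists
  refine ⟨n, ?_⟩
  have h1 : p.eval (1700 * (n + 1) ^ 2) ≤ c * (1700 * (n + 1) ^ 2) ^ k :=
    eval_le p (Nat.one_le_iff_ne_zero.2 (by positivity))
  refine h1.trans ?_
  have h2 : ((n + 1 : ℕ) : ℝ) ^ (2 * k) * (2 * (c * 1700 ^ k) + 1) < 2 ^ (n + 1) := by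
    rw [div_lt_div_iff₀ (by positivity) (by positivity)] at hn
    linarith
  have h3 : (c * (1700 * (n + 1) ^ 2) ^ k : ℝ) ≤ 2 ^ n := by
    have e : ((1700 : ℝ) * (n + 1) ^ 2) ^ k = 1700 ^ k * ((n + 1 : ℕ) : ℝ) ^ (2 * k) := by
      push_cast
      rw [mul_pow, pow_mul]
    rw [e]
    have h0 : (0 : ℝ) ≤ ((n + 1 : ℕ) : ℝ) ^ (2 * k) := by positivity
    rw [pow_succ] at h2
    nlinarith
  exact_mod_cast h3

end Pool.Agent.Work.MP_3b7dc8_lc
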