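import Pool.Agent.Work.MP_3b7dc8_lc.Analysis

/-!
# The deviations of `J` and of the `D i`
-/

set_option autoImplicit false
set_option linter.unusedSectionVars false

open scoped BigOperators Topology
open Filter

namespace Pool.Agent.Work.MP_3b7dc8_lc

namespace Family

variable {n : ℕ} {σ : Vx n → Vx n → ℝ}

/-- If `J` always enters its hub. -/
lemma J_test_aux (hσ : (game n).IsProfile σ) (hJ : tkJ σ = 1) :
    OO σ (Fin.last n) * (pv σ * (1 - (game n).payoff σ Pl.J)) ≤
      (game n).payoff σ Pl.J * (SS σ (Fin.last n) + OO σ (Fin.last n) * PP σ (Fin.last n)) := by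
  rw [Game.payoff_eq_val, game_init]
  have hlow := lvl_lower hσ Pl.J (by simp [reward])
  set x := (game n).val σ Pl.J (Vx.dec (Fin.last n)) with hx
  have hx0 : 0 ≤ x := Game.val_nonneg game_valid hσ _ _
  have hv : (game n).val σ Pl.J Vx.v - x = pv σ * (1 - x) := by
    rw [val_v hσ, val_tJ hσ]
    simp only [reward, ← hx]
    push_cast
    ring
  have hdec : ∀ j : Fin (n + 1), (-(x * SS σ j) + OO σ j * (pv σ * (1 - x) -
      x * PP σ (Fin.last n))) / 2 ≤ (game n).val σ Pl.J (Vx.dec j) - x := by
    intro j
    induction j using Fin.induction with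
    | zero =>
      have e1 : SS σ (0 : Fin (n + 1)) = 0 := by simp [SS]
      have e2 : OO σ (0 : Fin (n + 1)) = 1 := by simp [OO]
      have e3 : (game n).val σ Pl.J (Vx.dec 0) - x =
          (((game n).val σ Pl.J (Vx.lvl (Fin.last n)) - x) +
              ((game n).val σ Pl.J Vx.v - x)) / 2 := by
        rw [val_dec_zero hσ, val_hubJ hσ, hJ]
        ring
      rw [e3, e1, e2, hv]
      linarith [hlow (Fin.last n)]
    | succ i ih =>
      have h1 := tk_mem hσ i
      have e1 : SS σ i.succ = tk σ i * (PP σ i.succ + PP σ i.castSucc)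
        + (1 - tk σ i) * SS σ i.castSucc := by simp [SS]
      have e2 : OO σ i.succ = (1 - tk σ i) * OO σ i.castSucc := by simp [OO]
      have e3 : (game n).val σ Pl.J (Vx.dec i.succ) - x =
          tk σ i * ((((game n).val σ Pl.J (Vx.lvl i.succ) - x) +
            ((game n).val σ Pl.J (Vx.lvl i.castSucc) - x)) / 2) +
          (1 - tk σ i) * ((game n).val σ Pl.J (Vx.dec i.castSucc) - x) := by
        rw [val_dec_succ hσ, val_hub hσ]
        ring
      rw [e3, e1, e2]
      have a1 := mul_le_mul_of_nonneg_left ih h1.2
      have a2 : tk σ i * ((-(x * PP σ i.succ) + -(x * PP σ i.castSucc)) / 2) ≤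
          tk σ i * ((((game n).val σ Pl.J (Vx.lvl i.succ) - x) +
            ((game n).val σ Pl.J (Vx.lvl i.castSucc) - x)) / 2) :=
        mul_le_mul_of_nonneg_left (by linarith [hlow i.succ, hlow i.castSucc]) h1.1
      calc _ = tk σ i * ((-(x * PP σ i.succ) + -(x * PP σ i.castSucc)) / 2) +
            (1 - tk σ i) * ((-(x * SS σ i.castSucc) + OO σ i.castSucc * (pv σ * (1 - x) -
      x * PP σ (Fin.last n))) / 2) := by ring
        _ ≤ _ := add_le_add a2 a1
  have := hdec (Fin.last n)
  rw [← hx] at this
  nlinarith

/-- If `D i` always enters its hub and always claims. -/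
lemma D_test_aux (hσ : (game n).IsProfile σ) (i : Fin n) (ht : tk σ i = 1) (hc : cl σ i = 1)
    (hpos : ∀ m : Fin n, i < m → 0 < 1 - tk σ m) :
    pr σ i * (1 - (game n).payoff σ (Pl.D i)) ≤
      (game n).payoff σ (Pl.D i) * PP σ i.castSucc := by
  rw [Game.payoff_eq_val, game_init]
  have hlow := lvl_lower hσ (Pl.D i) (by simp [reward])
  set x := (game n).val σ (Pl.D i) (Vx.dec (Fin.last n)) with hx
  have hx0 : 0 ≤ x := Game.val_nonneg game_valid hσ _ _
  have hx1 : x ≤ 1 := Game.val_le_one game_valid hσ _ _
  have hsucc : ∀ m : Fin n, (game n).val σ (Pl.D i) (Vx.lvl m.succ) - x = pr σ m *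
        (cl σ m * (1 - x) + (1 - cl σ m) *
          ((game n).val σ (Pl.D i) (Vx.lvl m.castSucc) - x)) := by
    intro m
    rw [val_lvl_succ hσ, val_s hσ, val_tT hσ]
    simp only [reward, ← hx]
    push_cast
    ring
  have hhigh : ∀ m : Fin (n + 1), i.succ ≤ m →
      0 ≤ (game n).val σ (Pl.D i) (Vx.lvl m) - x := by
    intro m
    induction m using Fin.induction with
    | zero => intro h; exact absurd h (by simp)
    | succ j ih =>
      intro h
      rw [hsucc]
      have h1 := pr_mem hσ j
      have h2 := cl_mem hσ j
      rcases eq_or_lt_of_le (Fin.succ_le_succ_iff.1 h) with hij | hij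
      · subst hij
        rw [hc]
        have : 0 ≤ pr σ i * (1 - x) := mul_nonneg h1.1 (by linarith)
        nlinarith
      · have : i.succ ≤ j.castSucc := by
          rw [Fin.le_def]
          simpa using hij
        exact mul_nonneg h1.1 (add_nonneg (mul_nonneg h2.1 (by linarith))
          (mul_nonneg h2.2 (ih this)))
  by_contra hcon
  push Not at hcon
  have hstart : 0 < (game n).val σ (Pl.D i) (Vx.dec i.succ) - x := by
    have e : (game n).val σ (Pl.D i) (Vx.dec i.succ) - x =
        (((game n).val σ (Pl.D i) (Vx.lvl i.succ) - x) +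
          ((game n).val σ (Pl.D i) (Vx.lvl i.castSucc) - x)) / 2 := by
      rw [val_dec_succ hσ, val_hub hσ, ht]
      ring
    rw [e, hsucc, hc]
    have := hlow i.castSucc
    nlinarith
  have hall : ∀ m : Fin (n + 1), i.succ ≤ m →
      0 < (game n).val σ (Pl.D i) (Vx.dec m) - x := by
    intro m
    induction m using Fin.induction with
    | zero => intro h; exact absurd h (by simp)
    | succ j ih =>
      intro h
      rcases eq_or_lt_of_le (Fin.succ_le_succ_iff.1 h) with hij | hij
      · subst hij; exact hstart
      · have hle : i.succ ≤ j.castSucc := by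
          rw [Fin.le_def]
          simpa using hij
        have e : (game n).val σ (Pl.D i) (Vx.dec j.succ) - x =
          tk σ j * ((((game n).val σ (Pl.D i) (Vx.lvl j.succ) - x) +
            ((game n).val σ (Pl.D i) (Vx.lvl j.castSucc) - x)) / 2) +
          (1 - tk σ j) * ((game n).val σ (Pl.D i) (Vx.dec j.castSucc) - x) := by
          rw [val_dec_succ hσ, val_hub hσ]
          ring
        rw [e]
        have p1 := hhigh j.succ h
        have p2 := hhigh j.castSucc hle
        have p3 := mul_pos (hpos j hij) (ih hle)
        have p4 : 0 ≤ tk σ j * ((((game n).val σ (Pl.D i) (Vx.lvl j.succ) - x) +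
            ((game n).val σ (Pl.D i) (Vx.lvl j.castSucc) - x)) / 2) :=
          mul_nonneg (tk_mem hσ j).1 (by linarith)
        linarith
  have := hall (Fin.last n) (Fin.le_last _)
  rw [← hx] at this
  linarith

/-- If neither exit of the main loop is used, `O` gets nothing. -/
lemma O_zero (hσ : (game n).IsProfile σ)
    (h0 : OO σ (Fin.last n) * (pv σ + (1 - tkJ σ) * pz σ) = 0) :
    (game n).payoff σ Pl.O ≤ 0 := by
  classical
  have hpv := pv_mem hσ
  have hpz := pz_mem hσ
  have htJ := tkJ_mem hσ
  let h : Vx n → ℝ := fun u => match u with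
    | .dec j => if OO σ j * (pv σ + (1 - tkJ σ) * pz σ) = 0 then 0 else 1
    | .lvl _ => 0
    | .s _ => 0
    | .hub _ => 0
    | .hubJ => if pv σ = 0 then 0 else 1
    | .hubStar => if pv σ = 0 ∧ pz σ = 0 then 0 else 1
    | .v => if pv σ = 0 then 0 else 1
    | .z => if pz σ = 0 then 0 else 1
    | .tZ => 1
    | .tJ => 1
    | .tT => 0
  have hbd : ∀ u, 0 ≤ h u ∧ h u ≤ 1 := by
    intro u
    cases u <;> simp only [h] <;> (try split_ifs) <;> norm_num
  have hlast : h (Vx.dec (Fin.last n)) = 0 := if_pos h0
  have key : ∀ u, (game n).stop Pl.O u + ∑ w, (game n).step σ u w * h w ≤ h u := by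
    intro u
    have hplayer : ∀ {a b : Vx n} {j : Pl n}, kind u = Kind.player j → suc u = some (a, b) →
        (game n).stop Pl.O u + ∑ w, (game n).step σ u w * h w =
          σ u a * h a + (1 - σ u a) * h b := by
      intro a b j hk hs
      rw [Game.stop_of_player (G := game n) hk, zero_add, ← sum_player hσ hk hs]
      exact Finset.sum_congr rfl fun w _ => by rw [Game.step_of_player (G := game n) hk]
    have hchance : ∀ {a b : Vx n}, kind u = Kind.chance → suc u = some (a, b) →
        (game n).stop Pl.O u + ∑ w, (game n).step σ u w * h w = (h a + h b) / 2 := by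
      intro a b hk hs
      rw [Game.stop_of_chance (G := game n) hk, zero_add, ← sum_chance hk hs]
      exact Finset.sum_congr rfl fun w _ => by rw [Game.step_of_chance (G := game n) hk]
    have hterm : kind u = Kind.terminal →
        (game n).stop Pl.O u + ∑ w, (game n).step σ u w * h w = (reward u Pl.O : ℝ) := by
      intro hk
      rw [Game.stop_of_terminal (G := game n) hk]
      have : ∑ w, (game n).step σ u w * h w = 0 :=
        Finset.sum_eq_zero fun w _ => by rw [Game.step_of_terminal (G := game n) hk, zero_mul]
      rw [this, add_zero]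
      rfl
    have hle1 : (game n).stop Pl.O u + ∑ w, (game n).step σ u w * h w ≤ 1 :=
      Game.update_le_one game_valid hσ Pl.O u h fun w => (hbd w).2
    cases u with
    | dec j =>
      by_cases hz : OO σ j * (pv σ + (1 - tkJ σ) * pz σ) = 0
      · have hval : h (Vx.dec j) = 0 := if_pos hz
        induction j using Fin.cases with
        | zero =>
          rw [hplayer kind_dec_zero suc_dec_zero, hval]
          have e2 : OO σ (0 : Fin (n + 1)) = 1 := by simp [OO]
          rw [e2, one_mul] at hz
          have hz1 : pv σ = 0 := by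
            have := mul_nonneg htJ.2 hpz.1
            linarith [hpv.1]
          have hz2 : (1 - tkJ σ) * pz σ = 0 := by rw [hz1] at hz; linarith
          have hJ : h Vx.hubJ = 0 := by simp [h, hz1]
          rw [hJ, mul_zero, zero_add]
          show (1 - tkJ σ) * h Vx.hubStar ≤ 0
          rcases mul_eq_zero.1 hz2 with h3 | h3
          · rw [h3, zero_mul]
          · have : h Vx.hubStar = 0 := by simp [h, hz1, h3]
            rw [this, mul_zero]
        | succ i =>
          rw [hplayer (kind_dec_succ i) (suc_dec_succ i), hval]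
          have e2 : OO σ i.succ = (1 - tk σ i) * OO σ i.castSucc := by simp [OO]
          have hhub : h (Vx.hub i) = 0 := rfl
          rw [hhub, mul_zero, zero_add]
          show (1 - tk σ i) * h (Vx.dec i.castSucc) ≤ 0
          rw [e2, mul_assoc] at hz
          rcases mul_eq_zero.1 hz with h3 | h3
          · rw [h3, zero_mul]
          · have : h (Vx.dec i.castSucc) = 0 := by
              show (if OO σ i.castSucc * (pv σ + (1 - tkJ σ) * pz σ) = 0 then (0:ℝ) else 1) = 0
              rw [if_pos h3]
            rw [this, mul_zero]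
      · have hval : h (Vx.dec j) = 1 := by simp only [h]; rw [if_neg hz]
        rw [hval]; exact hle1
    | lvl j =>
      induction j using Fin.cases with
      | zero =>
        rw [hterm kind_lvl_zero]
        simp [reward, h]
      | succ i =>
        rw [hplayer (kind_lvl_succ i) (suc_lvl_succ i), hlast]
        simp [h]
    | s i => rw [hplayer (j := Pl.D i) rfl rfl]; simp [h]
    | hub i => rw [hchance rfl rfl]; simp [h]
    | hubJ =>
      rw [hchance rfl rfl]
      by_cases hz : pv σ = 0
      · simp [h, hz]
      · simp [h, hz]; norm_num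
    | hubStar =>
      rw [hchance rfl rfl]
      by_cases hz : pv σ = 0 <;> by_cases hz2 : pz σ = 0 <;> simp [h, hz, hz2] <;> norm_num
    | v =>
      rw [hplayer (j := Pl.O) rfl rfl, hlast]
      show pv σ * _ + _ ≤ _
      by_cases hz : pv σ = 0
      · simp [h, hz]
      · simp [h, hz]; linarith
    | z =>
      rw [hplayer (j := Pl.O) rfl rfl, hlast]
      show pz σ * _ + _ ≤ _
      by_cases hz : pz σ = 0
      · simp [h, hz]
      · simp [h, hz]; linarith
    | tZ => rw [hterm rfl]; simp [reward, h]
    | tJ => rw [hterm rfl]; simp [reward, h]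
    | tT => rw [hterm rfl]; simp [reward, h]
  have := Game.val_le_of_super game_valid hσ Pl.O h (fun u => (hbd u).1) key
    (Vx.dec (Fin.last n))
  rw [hlast] at this
  exact this

/-! ### The deviating profiles -/

/-- `J` always enters its hub. -/
noncomputable def devJ (σ : Vx n → Vx n → ℝ) : Vx n → Vx n → ℝ := fun u =>
  if u = Vx.dec 0 then Pi.single Vx.hubJ 1 else σ u

/-- `D i` always enters its hub and always claims. -/
noncomputable def devD (σ : Vx n → Vx n → ℝ) (i : Fin n) : Vx n → Vx n → ℝ := fun u =>
  if u = Vx.dec i.succ then Pi.single (Vx.hub i) 1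
  else if u = Vx.s i then Pi.single Vx.tT 1 else σ u

lemma isDistAt_single {u a b : Vx n} (h : suc u = some (a, b)) :
    (game n).IsDistAt u (Pi.single a 1) where
  nonneg := by
    intro w
    by_cases hw : w = a
    · subst hw; simp
    · simp [hw]
  supp := by
    intro w hw
    have := ((adj_false h).1 hw).1
    simp [this]
  sum_eq := by simp

lemma devJ_profile (hσ : (game n).IsProfile σ) : (game n).IsProfile (devJ σ) := by
  intro u i hu
  by_cases h : u = Vx.dec 0
  · subst h
    simp only [devJ, if_true]
    exact isDistAt_single suc_dec_zero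
  · simp only [devJ, if_neg h]
    exact hσ u i hu

lemma devD_profile (hσ : (game n).IsProfile σ) (i : Fin n) :
    (game n).IsProfile (devD σ i) := by
  intro u j hu
  by_cases h : u = Vx.dec i.succ
  · subst h
    simp only [devD, if_true]
    exact isDistAt_single (suc_dec_succ i)
  · by_cases h2 : u = Vx.s i
    · subst h2
      simp only [devD, if_neg h, if_true]
      exact isDistAt_single (u := Vx.s i) rfl
    · simp only [devD, if_neg h, if_neg h2]
      exact hσ u j hu

lemma devJ_eq (u : Vx n) (h : (game n).kind u ≠ Kind.player Pl.J) : devJ σ u = σ u := by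
  have : u ≠ Vx.dec 0 := by rintro rfl; exact h rfl
  simp only [devJ, if_neg this]

lemma devD_eq (i : Fin n) (u : Vx n) (h : (game n).kind u ≠ Kind.player (Pl.D i)) :
    devD σ i u = σ u := by
  have h1 : u ≠ Vx.dec i.succ := by rintro rfl; exact h rfl
  have h2 : u ≠ Vx.s i := by rintro rfl; exact h rfl
  simp only [devD, if_neg h1, if_neg h2]

end Family

end Pool.Agent.Work.MP_3b7dc8_lc
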