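import Pool.Agent.Work.MP_3b7dc8_lc.Lower

/-!
# An exact stationary equilibrium meeting the constraints exactly
-/

set_option autoImplicit false
set_option linter.unusedSectionVars false

open scoped BigOperators Topology
open Filter

namespace Pool.Agent.Work.MP_3b7dc8_lc

namespace Family

variable {n : ℕ}

/-- The chain probabilities of the equilibrium. -/
noncomputable def Q : ℕ → ℝ
  | 0 => 1
  | j + 1 => Q j ^ 2 / 8

lemma Q_pos (j : ℕ) : 0 < Q j := by
  induction j with
  | zero => norm_num [Q]
  | succ j ih => simp only [Q]; positivity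

lemma Q_le_one (j : ℕ) : Q j ≤ 1 := by
  induction j with
  | zero => norm_num [Q]
  | succ j ih =>
    simp only [Q]
    have := Q_pos j
    nlinarith

/-- Probability of the first successor. -/
noncomputable def wt : Vx n → ℝ
  | .dec _ => 0
  | .lvl j => Fin.cases (motive := fun _ => ℝ) 0 (fun i => Q (i : ℕ) / 8) j
  | .s _ => 0
  | .hub _ => 0
  | .hubJ => 0
  | .hubStar => 0
  | .v => Q n / 8
  | .z => 7 * (Q n / 8)
  | .tZ => 0
  | .tJ => 0
  | .tT => 0

lemma wt_lvl_succ (i : Fin n) : wt (Vx.lvl i.succ) = Q (i : ℕ) / 8 := rfl

lemma wt_mem (u : Vx n) : 0 ≤ wt u ∧ wt u ≤ 1 := by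
  cases u with
  | lvl j =>
    induction j using Fin.cases with
    | zero => exact ⟨le_refl _, zero_le_one⟩
    | succ i =>
      rw [wt_lvl_succ]
      have h1 := Q_pos (i : ℕ)
      have h2 := Q_le_one (i : ℕ)
      constructor <;> linarith
  | v =>
    have h1 := Q_pos n
    have h2 := Q_le_one n
    simp only [wt]
    constructor <;> linarith
  | z =>
    have h1 := Q_pos n
    have h2 := Q_le_one n
    simp only [wt]
    constructor <;> linarith
  | _ => simp [wt]

/-- The equilibrium profile. -/
noncomputable def eqp (n : ℕ) : Vx n → Vx n → ℝ := fun u w =>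
  match suc u with
  | none => 0
  | some (a, b) => if w = a then wt u else if w = b then 1 - wt u else 0

lemma eqp_fst {u a b : Vx n} (h : suc u = some (a, b)) : eqp n u a = wt u := by
  simp [eqp, h]

lemma eqp_isDistAt {u a b : Vx n} (h : suc u = some (a, b)) :
    (game n).IsDistAt u (eqp n u) := by
  have hab := suc_ne h
  have hw := wt_mem u
  refine ⟨?_, ?_, ?_⟩
  · intro w
    simp only [eqp, h]
    split_ifs <;> linarith [hw.1, hw.2]
  · intro w hadj
    have := (adj_false h).1 hadj
    simp [eqp, h, this.1, this.2]
  · rw [sum_two hab]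
    · simp [eqp, h, hab.symm]
    · intro w h1 h2
      simp [eqp, h, h1, h2]

lemma eqp_profile : (game n).IsProfile (eqp n) := by
  intro u i hu
  have hu' : kind u = Kind.player i := hu
  obtain ⟨a, b, h⟩ := exists_suc (u := u) (by rw [hu']; simp)
  exact eqp_isDistAt h

lemma pr_eqp (i : Fin n) : pr (eqp n) i = Q (i : ℕ) / 8 := eqp_fst (suc_lvl_succ i)
lemma cl_eqp (i : Fin n) : cl (eqp n) i = 0 := eqp_fst (u := Vx.s i) rfl
lemma tk_eqp (i : Fin n) : tk (eqp n) i = 0 := eqp_fst (suc_dec_succ i)
lemma tkJ_eqp : tkJ (eqp n) = 0 := eqp_fst suc_dec_zero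
lemma pv_eqp : pv (eqp n) = Q n / 8 := eqp_fst (u := Vx.v) rfl
lemma pz_eqp : pz (eqp n) = 7 * (Q n / 8) := eqp_fst (u := Vx.z) rfl

/-- The payoffs of the equilibrium. -/
lemma payoff_eqp (i : Pl n) : (game n).payoff (eqp n) i = (target i : ℝ) := by
  rw [Game.payoff_eq_val, game_init]
  have hσ : (game n).IsProfile (eqp n) := eqp_profile
  have hdec : ∀ j : Fin (n + 1), (game n).val (eqp n) i (Vx.dec j) =
      (game n).val (eqp n) i Vx.hubStar := by
    intro j
    induction j using Fin.induction with
    | zero => rw [val_dec_zero hσ, tkJ_eqp]; ring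
    | succ j ih => rw [val_dec_succ hσ, tk_eqp, ih]; ring
  have h1 := val_hubStar hσ i
  have h2 := val_v hσ i
  have h3 := val_z hσ i
  rw [hdec, pv_eqp, val_tJ hσ] at h2
  rw [hdec, pz_eqp, val_tZ hσ] at h3
  rw [hdec]
  have hQ := Q_pos n
  rw [h2, h3] at h1
  generalize (game n).val (eqp n) i Vx.hubStar = x at *
  have key : Q n * (x - (7 * (reward (n := n) Vx.tZ i : ℝ) +
      (reward (n := n) Vx.tJ i : ℝ)) / 8) = 0 := by
    linear_combination 2 * h1
  have hx : x = (7 * (reward (n := n) Vx.tZ i : ℝ) +
      (reward (n := n) Vx.tJ i : ℝ)) / 8 := by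
    rcases mul_eq_zero.1 key with h | h
    · exact absurd h hQ.ne'
    · linarith
  rw [hx]
  cases i <;> simp only [reward, target] <;> push_cast <;> norm_num

/-- Potential for the deviations of `J`. -/
noncomputable def potJ : Vx n → ℝ
  | .dec _ => 1 / 8
  | .lvl j => (1 - Q (j : ℕ)) / 8
  | .s i => (1 - Q (i : ℕ)) / 8
  | .hub _ => 1 / 8
  | .hubJ => 1 / 8
  | .hubStar => 1 / 8
  | .v => 1 / 8 + 7 * (Q n / 8) / 8
  | .z => (1 - 7 * (Q n / 8)) / 8
  | .tZ => 0
  | .tJ => 1
  | .tT => 1

/-- Potential for the deviations of `D i`. -/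
noncomputable def potD (i : Fin n) : Vx n → ℝ
  | .dec _ => 1 / 8
  | .lvl j => if (j : ℕ) ≤ (i : ℕ) then (1 - Q (j : ℕ)) / 8
      else if (j : ℕ) = (i : ℕ) + 1 then 1 / 8 + 7 * (Q (i : ℕ) / 8) / 8 else 1
  | .s j => if (j : ℕ) < (i : ℕ) then (1 - Q (j : ℕ)) / 8 else 1
  | .hub j => if (j : ℕ) ≤ (i : ℕ) then 1 / 8 else 1
  | .hubJ => 1
  | .hubStar => 1 / 8
  | .v => 1 / 8
  | .z => 1 / 8
  | .tZ => 1 / 8
  | .tJ => 1 / 8
  | .tT => 1

lemma devO (τ : List (Vx n) → Vx n → ℝ) (hτ : (game n).IsStrategy Pl.O τ) :
    (game n).devPayoff (eqp n) Pl.O τ ≤ 1 := by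
  have hσ : (game n).IsProfile (eqp n) := eqp_profile
  refine Game.devPayoff_le_of_super game_valid hσ Pl.O (fun _ => 1) (fun _ => zero_le_one)
    ?_ ?_ ?_ ?_ τ hτ
  · intro u hu
    exact_mod_cast game_valid.reward_le_one u hu Pl.O
  · intro u hu
    have hu' : kind u = Kind.chance := hu
    obtain ⟨a, b, h⟩ := exists_suc (u := u) (by rw [hu']; simp)
    rw [sum_chance hu' h]; norm_num
  · intro u j hu _
    have hu' : kind u = Kind.player j := hu
    obtain ⟨a, b, h⟩ := exists_suc (u := u) (by rw [hu']; simp)
    rw [sum_player hσ hu' h]; simp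
  · intro u _ w _; exact le_refl _

lemma devJ_le (τ : List (Vx n) → Vx n → ℝ) (hτ : (game n).IsStrategy Pl.J τ) :
    (game n).devPayoff (eqp n) Pl.J τ ≤ 1 / 8 := by
  have hσ : (game n).IsProfile (eqp n) := eqp_profile
  have hQn := Q_pos n
  have hQn1 := Q_le_one n
  refine Game.devPayoff_le_of_super game_valid hσ Pl.J potJ ?_ ?_ ?_ ?_ ?_ τ hτ
  · intro u
    cases u with
    | lvl j => have := Q_le_one (j : ℕ); simp only [potJ]; linarith
    | s j => have := Q_le_one (j : ℕ); simp only [potJ]; linarith
    | v => simp only [potJ]; linarith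
    | z => simp only [potJ]; linarith
    | _ => simp only [potJ]; norm_num
  · intro u hu
    show (reward u Pl.J : ℝ) ≤ potJ u
    cases u with
    | lvl j => have := Q_le_one (j : ℕ); simp only [potJ, reward]; push_cast; linarith
    | s j => have := Q_le_one (j : ℕ); simp only [potJ, reward]; push_cast; linarith
    | v => simp only [potJ, reward]; push_cast; linarith
    | z => simp only [potJ, reward]; push_cast; linarith
    | _ => simp only [potJ, reward]; norm_num
  · intro u hu
    have hu' : kind u = Kind.chance := hu
    cases u with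
    | hub j =>
      rw [sum_chance (u := Vx.hub j) rfl rfl]
      have h1 := Q_pos ((j.succ : Fin (n + 1)) : ℕ)
      have h2 := Q_pos ((j.castSucc : Fin (n + 1)) : ℕ)
      simp only [potJ]
      linarith
    | hubJ =>
      rw [sum_chance (u := Vx.hubJ) rfl rfl]
      simp only [potJ, Fin.val_last]
      linarith
    | hubStar =>
      rw [sum_chance (u := Vx.hubStar) rfl rfl]
      simp only [potJ]
      linarith
    | dec j => induction j using Fin.cases with
      | zero => simp at hu'
      | succ i => simp at hu'
    | lvl j => induction j using Fin.cases with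
      | zero => simp at hu'
      | succ i => simp at hu'
    | _ => simp [kind] at hu'
  · intro u j hu hj
    have hu' : kind u = Kind.player j := hu
    cases u with
    | dec m =>
      induction m using Fin.cases with
      | zero => simp at hu'; exact absurd hu'.symm hj
      | succ i =>
        rw [sum_player hσ (kind_dec_succ i) (suc_dec_succ i), eqp_fst (suc_dec_succ i)]
        simp only [potJ, wt]
        norm_num
    | lvl m =>
      induction m using Fin.cases with
      | zero => simp at hu'
      | succ i =>
        rw [sum_player hσ (kind_lvl_succ i) (suc_lvl_succ i), eqp_fst (suc_lvl_succ i),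
          wt_lvl_succ]
        simp only [potJ, Fin.val_succ, Q]
        apply le_of_eq
        ring
    | s i =>
      rw [sum_player hσ (u := Vx.s i) (i := Pl.D i) rfl rfl, eqp_fst (u := Vx.s i) rfl]
      simp only [potJ, wt, Fin.val_castSucc]
      linarith
    | v =>
      rw [sum_player hσ (u := Vx.v) (i := Pl.O) rfl rfl, eqp_fst (u := Vx.v) rfl]
      simp only [potJ, wt]
      linarith
    | z =>
      rw [sum_player hσ (u := Vx.z) (i := Pl.O) rfl rfl, eqp_fst (u := Vx.z) rfl]
      simp only [potJ, wt]
      linarith
    | _ => simp [kind] at hu'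
  · intro u hu w hw
    have hu' : kind u = Kind.player Pl.J := hu
    cases u with
    | dec m =>
      induction m using Fin.cases with
      | zero =>
        rcases (adj_iff suc_dec_zero).1 hw with rfl | rfl
        · simp [potJ]
        · simp [potJ]
      | succ i => simp at hu'
    | lvl m => induction m using Fin.cases with
      | zero => simp at hu'
      | succ i => simp at hu'
    | _ => simp [kind] at hu'

lemma potD_mem (i : Fin n) (u : Vx n) : 0 ≤ potD i u ∧ potD i u ≤ 1 := by
  cases u with
  | lvl j =>
    have h1 := Q_le_one (j : ℕ)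
    have h2 := Q_pos (j : ℕ)
    have h3 := Q_le_one (i : ℕ)
    have h4 := Q_pos (i : ℕ)
    simp only [potD]
    split_ifs <;> constructor <;> linarith
  | s j =>
    have h1 := Q_le_one (j : ℕ)
    have h2 := Q_pos (j : ℕ)
    simp only [potD]
    split_ifs <;> constructor <;> linarith
  | hub j =>
    simp only [potD]
    split_ifs <;> constructor <;> norm_num
  | _ => simp only [potD]; constructor <;> norm_num

lemma devD_le (i : Fin n) (τ : List (Vx n) → Vx n → ℝ)
    (hτ : (game n).IsStrategy (Pl.D i) τ) :
    (game n).devPayoff (eqp n) (Pl.D i) τ ≤ 1 / 8 := by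
  have hσ : (game n).IsProfile (eqp n) := eqp_profile
  refine Game.devPayoff_le_of_super game_valid hσ (Pl.D i) (potD i)
    (fun u => (potD_mem i u).1) ?_ ?_ ?_ ?_ τ hτ
  · intro u hu
    have hu' : kind u = Kind.terminal := hu
    show (reward u (Pl.D i) : ℝ) ≤ potD i u
    cases u with
    | tZ => simp only [potD, reward]; norm_num
    | tJ => simp only [potD, reward]; norm_num
    | tT => simp only [potD, reward]; norm_num
    | lvl j =>
      have := (potD_mem i (Vx.lvl j)).1
      simpa [reward] using this
    | dec j =>
      have := (potD_mem i (Vx.dec j)).1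
      simpa [reward] using this
    | _ => simp [kind] at hu'
  · intro u hu
    have hu' : kind u = Kind.chance := hu
    cases u with
    | hub j =>
      rw [sum_chance (u := Vx.hub j) rfl rfl]
      by_cases hji : (j : ℕ) ≤ (i : ℕ)
      · have hR : potD i (Vx.hub j) = 1 / 8 := by simp [potD, hji]
        have hB : potD i (Vx.lvl j.castSucc) = (1 - Q (j : ℕ)) / 8 := by
          simp only [potD, Fin.val_castSucc]
          rw [if_pos hji]
        rw [hR, hB]
        have h1 := Q_pos (j : ℕ)
        rcases hji.lt_or_eq with hlt | heq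
        · have hA : potD i (Vx.lvl j.succ) = (1 - Q ((j : ℕ) + 1)) / 8 := by
            simp only [potD, Fin.val_succ]
            rw [if_pos (by omega)]
          rw [hA]
          have h2 := Q_pos ((j : ℕ) + 1)
          linarith
        · have hA : potD i (Vx.lvl j.succ) = 1 / 8 + 7 * (Q (i : ℕ) / 8) / 8 := by
            simp only [potD, Fin.val_succ]
            rw [if_neg (by omega), if_pos (by omega)]
          rw [hA, ← heq]
          linarith
      · have hR : potD i (Vx.hub j) = 1 := by simp only [potD]; rw [if_neg hji]
        rw [hR]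
        have h1 := (potD_mem i (Vx.lvl j.succ)).2
        have h2 := (potD_mem i (Vx.lvl j.castSucc)).2
        linarith
    | hubJ =>
      rw [sum_chance (u := Vx.hubJ) rfl rfl]
      have h1 := (potD_mem i (Vx.lvl (Fin.last n))).2
      have h2 : potD i Vx.v = 1 / 8 := rfl
      have h3 : potD i Vx.hubJ = 1 := rfl
      rw [h2, h3]
      linarith
    | hubStar =>
      rw [sum_chance (u := Vx.hubStar) rfl rfl]
      simp only [potD]
      norm_num
    | dec j => induction j using Fin.cases with
      | zero => simp at hu'
      | succ i => simp at hu'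
    | lvl j => induction j using Fin.cases with
      | zero => simp at hu'
      | succ i => simp at hu'
    | _ => simp [kind] at hu'
  · intro u j hu hj
    have hu' : kind u = Kind.player j := hu
    cases u with
    | dec m =>
      induction m using Fin.cases with
      | zero =>
        rw [sum_player hσ kind_dec_zero suc_dec_zero, eqp_fst suc_dec_zero]
        simp only [potD, wt]
        norm_num
      | succ i =>
        rw [sum_player hσ (kind_dec_succ i) (suc_dec_succ i), eqp_fst (suc_dec_succ i)]
        simp only [potD, wt]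
        norm_num
    | lvl m =>
      induction m using Fin.cases with
      | zero => simp at hu'
      | succ m =>
        rw [sum_player hσ (kind_lvl_succ m) (suc_lvl_succ m), eqp_fst (suc_lvl_succ m),
          wt_lvl_succ]
        have hR : potD i (Vx.dec (Fin.last n)) = 1 / 8 := rfl
        rw [hR]
        have hq1 := Q_pos (m : ℕ)
        have hq2 := Q_le_one (m : ℕ)
        rcases lt_trichotomy (m : ℕ) (i : ℕ) with hlt | heq | hgt
        · have hA : potD i (Vx.s m) = (1 - Q (m : ℕ)) / 8 := by
            simp only [potD]; rw [if_pos hlt]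
          have hB : potD i (Vx.lvl m.succ) = (1 - Q ((m : ℕ) + 1)) / 8 := by
            simp only [potD, Fin.val_succ]
            rw [if_pos (by omega)]
          rw [hA, hB]
          simp only [Q]
          apply le_of_eq
          ring
        · have hA : potD i (Vx.s m) = 1 := by
            simp only [potD]; rw [if_neg (by omega)]
          have hB : potD i (Vx.lvl m.succ) = 1 / 8 + 7 * (Q (i : ℕ) / 8) / 8 := by
            simp only [potD, Fin.val_succ]
            rw [if_neg (by omega), if_pos (by omega)]
          rw [hA, hB, ← heq]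
          linarith
        · have hA : potD i (Vx.s m) ≤ 1 := (potD_mem i _).2
          have hB : potD i (Vx.lvl m.succ) = 1 := by
            simp only [potD, Fin.val_succ]
            rw [if_neg (by omega), if_neg (by omega)]
          rw [hB]
          have : Q (m : ℕ) / 8 * potD i (Vx.s m) ≤ Q (m : ℕ) / 8 * 1 :=
            mul_le_mul_of_nonneg_left hA (by linarith)
          linarith
    | s m =>
      have hmi : m ≠ i := by
        rintro rfl
        apply hj
        simp [kind] at hu'
        exact hu'.symm
      rw [sum_player hσ (u := Vx.s m) (i := Pl.D m) rfl rfl, eqp_fst (u := Vx.s m) rfl]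
      simp only [wt, zero_mul, zero_add, sub_zero, one_mul]
      have hmi' : (m : ℕ) ≠ (i : ℕ) := fun h => hmi (Fin.ext h)
      rcases lt_or_gt_of_ne hmi' with hlt | hgt
      · have hA : potD i (Vx.s m) = (1 - Q (m : ℕ)) / 8 := by
          simp only [potD]; rw [if_pos hlt]
        have hB : potD i (Vx.lvl m.castSucc) = (1 - Q (m : ℕ)) / 8 := by
          simp only [potD, Fin.val_castSucc]
          rw [if_pos (by omega)]
        rw [hA, hB]
      · have hA : potD i (Vx.s m) = 1 := by
          simp only [potD]; rw [if_neg (by omega)]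
        rw [hA]
        exact (potD_mem i _).2
    | v =>
      rw [sum_player hσ (u := Vx.v) (i := Pl.O) rfl rfl, eqp_fst (u := Vx.v) rfl]
      simp only [potD, wt]
      linarith
    | z =>
      rw [sum_player hσ (u := Vx.z) (i := Pl.O) rfl rfl, eqp_fst (u := Vx.z) rfl]
      simp only [potD, wt]
      linarith
    | _ => simp [kind] at hu'
  · intro u hu w hw
    have hu' : kind u = Kind.player (Pl.D i) := hu
    cases u with
    | dec m =>
      induction m using Fin.cases with
      | zero => simp at hu'
      | succ m =>
        have : m = i := by simpa using hu'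
        subst this
        rcases (adj_iff (suc_dec_succ m)).1 hw with rfl | rfl
        · simp [potD]
        · simp [potD]
    | lvl m => induction m using Fin.cases with
      | zero => simp at hu'
      | succ i => simp at hu'
    | s m =>
      have : m = i := by simpa [kind] using hu'
      subst this
      have h1 : potD m (Vx.s m) = 1 := by simp [potD]
      rw [h1]
      exact (potD_mem m w).2
    | _ => simp [kind] at hu'

/-- `eqp` is an exact Nash equilibrium meeting the constraints exactly. -/
theorem eqp_NE : (game n).IsEpsNE 0 (eqp n) := by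
  intro i τ hτ
  rw [payoff_eqp]
  cases i with
  | O => simpa [target] using devO τ hτ
  | J => simpa [target] using devJ_le τ hτ
  | D i => simpa [target] using devD_le i τ hτ

theorem eqp_meets : (game n).Meets target target 0 (eqp n) := by
  intro i
  rw [payoff_eqp]
  simp

end Family

end Pool.Agent.Work.MP_3b7dc8_lc
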